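import Pool.Agent.R479.DA.Exact

/-!
# Almost every number has many approximations `p / q` with `rad p * rad q` small
-/

set_option autoImplicit false

namespace Pool.Agent.R479.DB

open Filter Topology MeasureTheory Finset
open Pool.Agent.H785R2.ABC (rad)
open Pool.Agent.R479.DA
open scoped ENNReal NNReal

/-- the fractions `p / q` in `(0, 1)` with `rad p * rad q ≤ B q ^ mu` -/
def S2 (B mu : ℝ) : Set (ℕ × ℕ) :=
  {t | 0 < t.1 ∧ t.1 < t.2 ∧ Nat.Coprime t.1 t.2 ∧ ((rad t.1 * rad t.2 : ℕ) : ℝ) ≤ B * (t.2 : ℝ) ^ mu}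

theorem rad_le_mul_right {p g w : ℕ} (hw : 0 < w) (h : p * g = w) : rad p ≤ rad w :=
  rad_le_of_dvd ⟨g, h.symm⟩ hw.ne'

/-- **Almost every number has many approximations with a small radical.** -/
theorem ae_approx3 {mu mu' B : ℝ} (h1 : 0 < mu') (h2 : mu' < mu) (h3 : mu ≤ 2) (hB : 0 < B) :
    ∀ᵐ x ∂(volume : Measure ℝ), x ∈ Set.Ioo (0 : ℝ) 1 → ∃ᶠ q : ℕ in atTop,
      ∃ p : ℕ, (p, q) ∈ S2 B mu ∧ |x - (p : ℝ) / q| < (q : ℝ) ^ (-mu') := by
  set κ : ℝ := 2 - mu with hκ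
  set κ'' : ℝ := 2 - mu' with hκ''
  set κ' : ℝ := (κ + κ'') / 2 with hκ'
  have hκ0 : 0 ≤ κ := by linarith
  have hκκ'' : κ < κ'' := by linarith
  have hκκ : κ < κ' := by linarith
  have hκκ2 : κ' < κ'' := by linarith
  have hκ'0 : 0 < κ' := by linarith
  have hκ''2 : κ'' < 2 := by linarith
  have hκ'2 : 0 < 2 - κ' := by linarith
  set ν : ℝ := (2 - κ') / κ' with hν
  have hν0 : 0 < ν := div_pos hκ'2 hκ'0
  set δ : ℝ := (κ'' - κ') / (2 - κ') with hδ
  have hδ0 : 0 < δ := div_pos (by linarith) hκ'2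
  have hδ1 : δ < 1 := (div_lt_one hκ'2).2 (by linarith)
  set η : ℝ := 1 - κ / κ' with hη
  have hr1 : κ / κ' < 1 := (div_lt_one hκ'0).2 hκκ
  have hr0 : 0 ≤ κ / κ' := by positivity
  have hη0 : 0 < η := by rw [hη]; linarith
  have hη1 : η ≤ 1 := by rw [hη]; linarith
  set N : ℕ → ℕ := fun m => ⌊(2 : ℝ) ^ (ν * (m : ℝ))⌋₊ with hNdef
  set L : ℕ → ℕ := fun m => ⌈(2 : ℝ) ^ (ν * (1 - δ) * (m : ℝ))⌉₊ with hLdef
  set J : ℕ → ℕ := fun m => ⌊η / 6 * m⌋₊ with hJdef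
  set n : ℕ → ℕ := fun m => Nat.log 3 (2 ^ m) with hndef
  have hN1 : ∀ m : ℕ, 1 ≤ N m := fun m => Nat.one_le_floor_iff _ |>.mpr
    (Real.one_le_rpow (by norm_num) (by positivity))
  have hNle : ∀ m : ℕ, (N m : ℝ) ≤ (2 : ℝ) ^ (ν * (m : ℝ)) := fun m => Nat.floor_le (by positivity)
  have hNlt : ∀ m : ℕ, (2 : ℝ) ^ (ν * (m : ℝ)) < (N m : ℝ) + 1 := fun m => Nat.lt_floor_add_one _
  have hνδ : 0 < ν * (1 - δ) := mul_pos hν0 (by linarith)
  have hLge : ∀ m : ℕ, (2 : ℝ) ^ (ν * (1 - δ) * (m : ℝ)) ≤ L m := fun m => Nat.le_ceil _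
  have hLone : ∀ m : ℕ, (1 : ℝ) ≤ (2 : ℝ) ^ (ν * (1 - δ) * (m : ℝ)) := fun m =>
    Real.one_le_rpow (by norm_num) (by positivity)
  have hLle : ∀ m : ℕ, (L m : ℝ) ≤ 2 * (2 : ℝ) ^ (ν * (1 - δ) * (m : ℝ)) := fun m => by
    have h4 : (L m : ℝ) < (2 : ℝ) ^ (ν * (1 - δ) * (m : ℝ)) + 1 := Nat.ceil_lt_add_one (by positivity)
    have := hLone m
    linarith
  have hL1 : ∀ m : ℕ, 1 ≤ L m := fun m => by
    have : (1 : ℝ) ≤ L m := (hLone m).trans (hLge m)
    exact_mod_cast this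
  have hJle : ∀ m : ℕ, (J m : ℝ) ≤ η / 6 * m := fun m => Nat.floor_le (by positivity)
  have hJlt : ∀ m : ℕ, η / 6 * m < (J m : ℝ) + 1 := fun m => Nat.lt_floor_add_one _
  have hn1 : ∀ m : ℕ, 3 ^ n m ≤ 2 ^ m := fun m => Nat.pow_log_le_self 3 (by positivity)
  have hn2 : ∀ m : ℕ, 2 ^ m < 3 ^ (n m + 1) := fun m => Nat.lt_pow_succ_log_self (by norm_num) _
  -- Borel-Cantelli
  set E : ℕ → Set ℝ := fun m => EA m (n m) (N m) (L m) ∪ EB m (n m) (N m) (L m) (J m) ∪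
    EC m (n m) (N m) (J m) with hE
  have hvol : ∀ m : ℕ, volume (E m) ≤ ENNReal.ofReal (20 * ((2 : ℝ) ^ (-(ν * δ))) ^ m +
      36 * ((2 : ℝ) ^ (-(η / 6))) ^ m + 2 * ((2 : ℝ) ^ (-(ν * (1 - δ)))) ^ m) := by
    intro m
    have e1 : (10 * L m / ((N m : ℝ) + 1)) ≤ 20 * ((2 : ℝ) ^ (-(ν * δ))) ^ m := by
      rw [div_le_iff₀ (by positivity)]
      have h5 : (2 : ℝ) ^ (ν * (1 - δ) * (m : ℝ)) =
          ((2 : ℝ) ^ (-(ν * δ))) ^ m * 2 ^ (ν * (m : ℝ)) := by
        rw [pow_eq_rpow, ← Real.rpow_add (by norm_num)]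
        congr 1
        ring
      calc (10 : ℝ) * L m ≤ 10 * (2 * (2 : ℝ) ^ (ν * (1 - δ) * (m : ℝ))) := by
            have := hLle m
            gcongr
        _ = 20 * ((2 : ℝ) ^ (-(ν * δ))) ^ m * 2 ^ (ν * (m : ℝ)) := by
            rw [h5]
            ring
        _ ≤ 20 * ((2 : ℝ) ^ (-(ν * δ))) ^ m * ((N m : ℝ) + 1) := by
            have := (hNlt m).le
            gcongr
    have e2 : ((1 : ℝ) / 2) ^ J m ≤ 2 * ((2 : ℝ) ^ (-(η / 6))) ^ m := by
      have h6 : ((1 : ℝ) / 2) ^ (J m + 1) ≤ ((2 : ℝ) ^ (-(η / 6))) ^ m := by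
        rw [pow_eq_rpow, one_div, inv_pow, ← Real.rpow_natCast, ← Real.rpow_neg (by norm_num)]
        apply Real.rpow_le_rpow_of_exponent_le (by norm_num)
        have := hJlt m
        push_cast
        linarith
      rw [pow_succ] at h6
      linarith
    have e3 : (2 / (L m : ℝ)) ≤ 2 * ((2 : ℝ) ^ (-(ν * (1 - δ)))) ^ m := by
      have h5 : ((2 : ℝ) ^ (-(ν * (1 - δ)))) ^ m = ((2 : ℝ) ^ (ν * (1 - δ) * (m : ℝ)))⁻¹ := by
        rw [pow_eq_rpow, ← Real.rpow_neg (by norm_num)]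
        congr 1
        ring
      rw [h5, div_eq_mul_inv]
      have := hLge m
      have h6 : (0 : ℝ) < (2 : ℝ) ^ (ν * (1 - δ) * (m : ℝ)) := by positivity
      gcongr
    have hJ0 : (0 : ℝ) ≤ (1 / 2) ^ J m := by positivity
    calc volume (E m) ≤ volume (EA m (n m) (N m) (L m)) +
          volume (EB m (n m) (N m) (L m) (J m)) + volume (EC m (n m) (N m) (J m)) :=
          (measure_union_le _ _).trans (add_le_add_left (measure_union_le _ _) _)
      _ ≤ ENNReal.ofReal (10 * L m / (N m + 1)) + ENNReal.ofReal (8 * (1 / 2) ^ J m + 2 / L m) +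
          ENNReal.ofReal (10 * (1 / 2) ^ J m) :=
          add_le_add (add_le_add (volume_EA _ _ _ _) (volume_EB _ _ _ _ _ (hL1 m)))
            (volume_EC _ _ _ _)
      _ = ENNReal.ofReal (10 * L m / (N m + 1) + (8 * (1 / 2) ^ J m + 2 / L m) +
          10 * (1 / 2) ^ J m) := by
          rw [← ENNReal.ofReal_add (by positivity) (by positivity),
            ← ENNReal.ofReal_add (by positivity) (by positivity)]
      _ ≤ _ := ENNReal.ofReal_le_ofReal (by linarith)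
  have hgeo : ∀ c : ℝ, 0 < c → Summable fun m : ℕ => ((2 : ℝ) ^ (-c)) ^ m := fun c hc =>
    summable_geometric_of_lt_one (by positivity)
      (Real.rpow_lt_one_of_one_lt_of_neg (by norm_num) (by linarith))
  have hsum : (∑' m, volume (E m)) ≠ ⊤ := by
    have h4 : Summable fun m : ℕ => 20 * ((2 : ℝ) ^ (-(ν * δ))) ^ m +
        36 * ((2 : ℝ) ^ (-(η / 6))) ^ m + 2 * ((2 : ℝ) ^ (-(ν * (1 - δ)))) ^ m :=
      (((hgeo _ (by positivity)).mul_left 20).add ((hgeo _ (by positivity)).mul_left 36)).add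
        ((hgeo _ hνδ).mul_left 2)
    refine ne_top_of_le_ne_top ?_ (ENNReal.tsum_le_tsum hvol)
    rw [← ENNReal.ofReal_tsum_of_nonneg (fun m => by positivity) h4]
    exact ENNReal.ofReal_ne_top
  filter_upwards [ae_eventually_notMem hsum] with x hx hx01
  rw [Filter.frequently_atTop]
  intro K
  -- a large scale
  have hlim : ∀ c : ℝ, 0 < c → Tendsto (fun m : ℕ => (2 : ℝ) ^ (c * (m : ℝ))) atTop atTop := by
    intro c hc
    have h4 : (1 : ℝ) < 2 ^ c := Real.one_lt_rpow (by norm_num) hc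
    exact (tendsto_pow_atTop_atTop_of_one_lt h4).congr fun m => pow_eq_rpow c m
  have hlim0 : Tendsto (fun m : ℕ => 1 / ((N m : ℝ) + 1)) atTop (𝓝 0) := by
    have h4 := (hlim ν hν0).inv_tendsto_atTop
    refine squeeze_zero (fun m => by positivity) (fun m => ?_) h4
    simp only [Pi.inv_apply]
    rw [one_div]
    have := (hNlt m).le
    have h6 : (0 : ℝ) < (2 : ℝ) ^ (ν * (m : ℝ)) := by positivity
    gcongr
  have ev1 := (hlim η hη0).eventually_ge_atTop (18 / B)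
  have ev2 := (hlim (1 / 2) (by norm_num)).eventually_ge_atTop (K : ℝ)
  have ev3 := hlim0.eventually_lt_const hx01.1
  have ev4 := hlim0.eventually_lt_const (show (0 : ℝ) < 1 - x by linarith [hx01.2])
  obtain ⟨m, hxm, e1, e2, e3, e4⟩ := (hx.and (ev1.and (ev2.and (ev3.and ev4)))).exists
  have hxA : x ∉ EA m (n m) (N m) (L m) := fun h => hxm (Or.inl (Or.inl h))
  have hxB : x ∉ EB m (n m) (N m) (L m) (J m) := fun h => hxm (Or.inl (Or.inr h))
  have hxC : x ∉ EC m (n m) (N m) (J m) := fun h => hxm (Or.inr h)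
  obtain ⟨p, q, g, u, v, hLv, hvN, hp0, hpq, hco, hg0, hgJ, hpg, hqg, hrad, hdist⟩ :=
    step2 (hN1 m) (hn1 m) (hn2 m) e3 (by linarith) hxA hxB hxC
  have hq0 : 0 < q := by omega
  have hqr : (0 : ℝ) < q := by exact_mod_cast hq0
  have hv1 : 1 ≤ v := (hL1 m).trans hLv
  have hvr : (1 : ℝ) ≤ v := by exact_mod_cast hv1
  have hgr : (1 : ℝ) ≤ g := by exact_mod_cast hg0
  have h2m : (0 : ℝ) < 2 ^ m := by positivity
  have hqg' : (q : ℝ) * g = 2 ^ m * v := by exact_mod_cast hqg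
  have hpg' : (p : ℝ) * g = 3 ^ (n m) * u := by exact_mod_cast hpg
  have hpq' : (p : ℝ) ≤ q := by exact_mod_cast hpq.le
  have h3n : (2 : ℝ) ^ m ≤ 3 ^ (n m) * 3 := by
    have h4 := hn2 m
    rw [pow_succ] at h4
    exact_mod_cast h4.le
  -- the size of `g`
  have hg8 : (g : ℝ) ≤ 2 ^ (η / 2 * (m : ℝ)) := by
    calc (g : ℝ) ≤ 6 ^ J m := by exact_mod_cast hgJ.le
      _ ≤ 8 ^ J m := by gcongr; norm_num
      _ = 2 ^ (3 * (J m : ℝ)) := by
          rw [show (8 : ℝ) = 2 ^ (3 : ℝ) by norm_num, ← Real.rpow_natCast, ← Real.rpow_mul (by norm_num)]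
      _ ≤ 2 ^ (η / 2 * (m : ℝ)) := by
          apply Real.rpow_le_rpow_of_exponent_le (by norm_num)
          have := hJle m
          linarith
  -- the size of `q`
  have hqle : (q : ℝ) ≤ 2 ^ (2 / κ' * (m : ℝ)) := by
    have h4 : (2 : ℝ) ^ (2 / κ' * (m : ℝ)) = 2 ^ m * 2 ^ (ν * (m : ℝ)) := by
      rw [← Real.rpow_natCast 2 m, ← Real.rpow_add (by norm_num)]
      congr 1
      rw [hν]
      field_simp
      ring
    rw [h4]
    have h5 : (q : ℝ) ≤ q * g := le_mul_of_one_le_right hqr.le hgr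
    rw [hqg'] at h5
    refine h5.trans ?_
    have h6 : (v : ℝ) ≤ N m := by exact_mod_cast hvN
    gcongr
    exact h6.trans (hNle m)
  refine ⟨q, ?_, p, ⟨hp0, hpq, hco, ?_⟩, ?_⟩
  · -- `K ≤ q`
    have h4 : (2 : ℝ) ^ m ≤ q * 2 ^ (η / 2 * (m : ℝ)) := by
      calc (2 : ℝ) ^ m ≤ 2 ^ m * v := le_mul_of_one_le_right h2m.le hvr
        _ = q * g := hqg'.symm
        _ ≤ q * 2 ^ (η / 2 * (m : ℝ)) := by gcongr
    have h5 : (2 : ℝ) ^ m = 2 ^ ((1 - η / 2) * (m : ℝ)) * 2 ^ (η / 2 * (m : ℝ)) := by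
      rw [← Real.rpow_natCast, ← Real.rpow_add (by norm_num)]
      congr 1
      ring
    rw [h5] at h4
    have h6 : (2 : ℝ) ^ ((1 - η / 2) * (m : ℝ)) ≤ q := le_of_mul_le_mul_right h4 (by positivity)
    have h7 : (2 : ℝ) ^ (1 / 2 * (m : ℝ)) ≤ 2 ^ ((1 - η / 2) * (m : ℝ)) := by
      apply Real.rpow_le_rpow_of_exponent_le (by norm_num)
      have : (0 : ℝ) ≤ m := Nat.cast_nonneg m
      nlinarith
    have h8 : (K : ℝ) ≤ q := e2.trans (h7.trans h6)
    exact_mod_cast h8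
  · -- the radical
    simp only
    have hu0 : 0 < u := by
      rcases Nat.eq_zero_or_pos u with h | h
      · rw [h, mul_zero] at hpg
        have : 0 < p * g := Nat.mul_pos hp0 hg0
        omega
      · exact h
    have h4 : ((rad p * rad q : ℕ) : ℝ) ≤ (3 * u) * (2 * v) := by
      have e1 : rad p ≤ 3 * u := by
        calc rad p ≤ rad (3 ^ (n m) * u) := rad_le_mul_right (by positivity) hpg
          _ ≤ rad (3 ^ (n m)) * rad u := rad_mul_le _ _
          _ ≤ 3 * u := Nat.mul_le_mul (rad_three_pow _) (rad_le_self hu0)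
      have e2 : rad q ≤ 2 * v := by
        calc rad q ≤ rad (2 ^ m * v) := rad_le_mul_right (by positivity) hqg
          _ ≤ rad (2 ^ m) * rad v := rad_mul_le _ _
          _ ≤ 2 * v := Nat.mul_le_mul (rad_two_pow _) (rad_le_self hv1)
      exact_mod_cast Nat.mul_le_mul e1 e2
    refine h4.trans ?_
    have h5 : (q : ℝ) ^ mu = q ^ (2 : ℕ) * (q : ℝ) ^ (-κ) := by
      rw [← Real.rpow_natCast, ← Real.rpow_add hqr]
      congr 1
      rw [hκ]
      push_cast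
      ring
    have h6 : (q : ℝ) ^ κ ≤ 2 ^ (2 * (κ / κ') * (m : ℝ)) := by
      calc (q : ℝ) ^ κ ≤ (2 ^ (2 / κ' * (m : ℝ))) ^ κ := Real.rpow_le_rpow hqr.le hqle hκ0
        _ = 2 ^ (2 * (κ / κ') * (m : ℝ)) := by
            rw [← Real.rpow_mul (by norm_num)]
            congr 1
            ring
    have h7 : 18 * (g : ℝ) ^ 2 * (q : ℝ) ^ κ ≤ B * (2 ^ m * 2 ^ m) := by
      have h8 : (2 : ℝ) ^ m * 2 ^ m = 2 ^ (η * (m : ℝ)) * ((2 ^ (η / 2 * (m : ℝ))) ^ 2 *
          2 ^ (2 * (κ / κ') * (m : ℝ))) := by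
        rw [← Real.rpow_natCast 2 m, sq, ← Real.rpow_add (by norm_num),
          ← Real.rpow_add (by norm_num), ← Real.rpow_add (by norm_num),
          ← Real.rpow_add (by norm_num)]
        congr 1
        rw [hη]
        ring
      rw [div_le_iff₀ hB] at e1
      rw [h8]
      calc 18 * (g : ℝ) ^ 2 * (q : ℝ) ^ κ
          ≤ (2 ^ (η * (m : ℝ)) * B) * (2 ^ (η / 2 * (m : ℝ))) ^ 2 *
            2 ^ (2 * (κ / κ') * (m : ℝ)) := by gcongr
        _ = _ := by ring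
    have h9 : (q : ℝ) ^ κ * (q : ℝ) ^ (-κ) = 1 := by
      rw [← Real.rpow_add hqr]
      simp
    have hqκ : 0 < (q : ℝ) ^ κ := by positivity
    rw [h5]
    -- `u 2 ^ m ≤ 3 q g`
    have h10 : (u : ℝ) * 2 ^ m ≤ 3 * (q * g) := by
      calc (u : ℝ) * 2 ^ m ≤ u * (3 ^ (n m) * 3) := by gcongr
        _ = 3 * (p * g) := by rw [hpg']; ring
        _ ≤ 3 * (q * g) := by gcongr
    have h11 : ((3 * u) * (2 * v)) * ((q : ℝ) ^ κ * (2 ^ m * 2 ^ m)) ≤
        (B * (q ^ (2 : ℕ) * (q : ℝ) ^ (-κ))) * ((q : ℝ) ^ κ * (2 ^ m * 2 ^ m)) := by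
      calc ((3 * u) * (2 * v)) * ((q : ℝ) ^ κ * (2 ^ m * 2 ^ m))
          = 6 * (u * 2 ^ m) * (2 ^ m * v) * (q : ℝ) ^ κ := by ring
        _ ≤ 6 * (3 * (q * g)) * (q * g) * (q : ℝ) ^ κ := by
            rw [hqg']
            rw [hqg'] at h10
            gcongr
        _ = q ^ 2 * (18 * (g : ℝ) ^ 2 * (q : ℝ) ^ κ) := by ring
        _ ≤ q ^ 2 * (B * (2 ^ m * 2 ^ m)) := by gcongr
        _ = (B * q ^ 2 * (2 ^ m * 2 ^ m)) * ((q : ℝ) ^ κ * (q : ℝ) ^ (-κ)) := by rw [h9]; ring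
        _ = _ := by ring
    exact le_of_mul_le_mul_right h11 (by positivity)
  · -- the distance
    refine lt_of_le_of_lt hdist ?_
    have h4 : (q : ℝ) ^ (2 - κ'') < ((N m : ℝ) + 1) * v := by
      calc (q : ℝ) ^ (2 - κ'') ≤ (2 ^ (2 / κ' * (m : ℝ))) ^ (2 - κ'') :=
            Real.rpow_le_rpow hqr.le hqle (by linarith)
        _ = 2 ^ (2 / κ' * (m : ℝ) * (2 - κ'')) := by rw [← Real.rpow_mul (by norm_num)]
        _ ≤ 2 ^ (ν * (m : ℝ) + ν * (1 - δ) * (m : ℝ)) := by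
            apply Real.rpow_le_rpow_of_exponent_le (by norm_num)
            have h5 : 2 / κ' * (2 - κ'') ≤ ν + ν * (1 - δ) := by
              rw [hν, hδ]
              have h6 : (2 - κ') / κ' + (2 - κ') / κ' * (1 - (κ'' - κ') / (2 - κ')) -
                  2 / κ' * (2 - κ'') = (κ'' - κ') / κ' := by
                field_simp
                ring
              have h7 : 0 < (κ'' - κ') / κ' := div_pos (by linarith) hκ'0
              linarith
            have h8 : (0 : ℝ) ≤ m := Nat.cast_nonneg m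
            nlinarith
        _ = 2 ^ (ν * (m : ℝ)) * 2 ^ (ν * (1 - δ) * (m : ℝ)) := Real.rpow_add (by norm_num) _ _
        _ < ((N m : ℝ) + 1) * v := by
            have h9 : (2 : ℝ) ^ (ν * (1 - δ) * (m : ℝ)) ≤ v :=
              (hLge m).trans (by exact_mod_cast hLv)
            have h10 := hNlt m
            have h11 : (0 : ℝ) < (2 : ℝ) ^ (ν * (1 - δ) * (m : ℝ)) := by positivity
            calc (2 : ℝ) ^ (ν * (m : ℝ)) * 2 ^ (ν * (1 - δ) * (m : ℝ))
                < ((N m : ℝ) + 1) * 2 ^ (ν * (1 - δ) * (m : ℝ)) := by gcongr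
              _ ≤ ((N m : ℝ) + 1) * v := by gcongr
    have h5 : (q : ℝ) ^ (-mu') = 1 / (q : ℝ) ^ (2 - κ'') := by
      rw [one_div, ← Real.rpow_neg hqr.le]
      congr 1
      rw [hκ'']
      ring
    rw [h5]
    exact one_div_lt_one_div_of_lt (by positivity) h4



/-- the real numbers with infinitely many approximations of exponent `τ` in `S2 B mu` -/
def W2 (B mu τ : ℝ) : Set ℝ :=
  {ξ : ℝ | {t | t ∈ S2 B mu ∧ |ξ - (t.1 : ℝ) / t.2| ≤ (t.2 : ℝ) ^ (-τ)}.Infinite}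

theorem mem_W2_of_frequently {B mu τ x : ℝ}
    (h : ∃ᶠ q : ℕ in atTop, ∃ p : ℕ, (p, q) ∈ S2 B mu ∧ |x - (p : ℝ) / q| ≤ (q : ℝ) ^ (-τ)) :
    x ∈ W2 B mu τ := by
  unfold W2
  simp only [Set.mem_ofPred_eq]
  intro hfin
  have h1 : (Prod.snd '' {t : ℕ × ℕ | t ∈ S2 B mu ∧
      |x - (t.1 : ℝ) / t.2| ≤ (t.2 : ℝ) ^ (-τ)}).Finite := hfin.image _
  obtain ⟨K, hK⟩ := h1.bddAbove
  obtain ⟨q, hq, p, hp, hd⟩ := (Filter.frequently_atTop.1 h) (K + 1)
  have h2 : q ≤ K := hK ⟨(p, q), ⟨hp, hd⟩, rfl⟩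
  omega

/-- lower bound for the dimension from the mass transference principle -/
theorem dim_lower2 {mu mu' B τ : ℝ} (h1 : 0 < mu') (h2 : mu' < mu) (h3 : mu ≤ 2) (hB : 0 < B)
    (hτ : mu' ≤ τ) : ENNReal.ofReal (mu' / τ) ≤ dimH (W2 B mu τ) := by
  have hτ0 : 0 < τ := by linarith
  set t : ℝ := mu' / τ with ht
  have ht0 : 0 < t := div_pos (by linarith) hτ0
  have ht1 : t ≤ 1 := (div_le_one hτ0).2 hτ
  set C : ℕ → Set ℝ := fun q => {c | ∃ p : ℕ, (p, q) ∈ S2 B mu ∧ c = (p : ℝ) / q} with hC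
  set ρ : ℕ → ℝ := fun q => ((max q 1 : ℕ) : ℝ) ^ (-mu') with hρ
  have hρpos : ∀ q, 0 < ρ q := fun q => by
    have : (0 : ℝ) < ((max q 1 : ℕ) : ℝ) := by
      have : 0 < max q 1 := by omega
      exact_mod_cast this
    simp only [hρ]
    positivity
  have hρ1 : ∀ q : ℕ, 1 ≤ q → ρ q = (q : ℝ) ^ (-mu') := by
    intro q hq
    simp only [hρ]
    rw [max_eq_left hq]
  have hρ0 : Tendsto ρ atTop (𝓝 0) := by
    have h4 : Tendsto (fun q : ℕ => (q : ℝ) ^ (-mu')) atTop (𝓝 0) :=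
      (tendsto_rpow_neg_atTop (by linarith)).comp tendsto_natCast_atTop_atTop
    refine h4.congr' ?_
    filter_upwards [eventually_ge_atTop 1] with q hq
    exact (hρ1 q hq).symm
  have hSpos : ∀ p q : ℕ, (p, q) ∈ S2 B mu → 1 ≤ q := by
    rintro p q ⟨h4, h5, -⟩
    simp only at h4 h5
    omega
  have hfull : ∀ᵐ x ∂(volume : Measure ℝ), x ∈ Set.Ioo 0 1 →
      ∃ᶠ k in atTop, ∃ c ∈ C k, |x - c| < ρ k := by
    filter_upwards [ae_approx3 h1 h2 h3 hB] with x hx hx01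
    refine (hx hx01).mono ?_
    rintro q ⟨p, hp, hd⟩
    exact ⟨(p : ℝ) / q, ⟨p, hp, rfl⟩, by rw [hρ1 q (hSpos p q hp)]; exact hd⟩
  -- the content
  have hcont : ∀ s : ℝ, 0 < s → s < t → μH[s] (W2 B mu τ) ≠ 0 := by
    intro s hs hst hzero
    have h4 : ENNReal.ofReal (1 / 20) ≤ μH[s] (W2 B mu τ) := by
      rw [Measure.hausdorffMeasure_apply]
      refine le_trans ?_ (le_iSup₂ (f := fun (r : ℝ≥0∞) (_ : 0 < r) =>
        ⨅ (t : ℕ → Set ℝ) (_ : W2 B mu τ ⊆ ⋃ n, t n) (_ : ∀ n, Metric.ediam (t n) ≤ r),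
          ∑' n, ⨆ _ : (t n).Nonempty, Metric.ediam (t n) ^ s) 1 one_pos)
      refine le_iInf fun A => le_iInf fun hA => le_iInf fun _ => ?_
      have h5 := Pool.Agent.R331.MT.content hs hst ht1 C ρ hρpos hρ0 hfull A (by
        refine subset_trans ?_ hA
        rintro x ⟨-, hx⟩
        apply mem_W2_of_frequently
        refine hx.mono ?_
        rintro q ⟨c, ⟨p, hp, rfl⟩, hc⟩
        refine ⟨p, hp, ?_⟩
        have hq := hSpos p q hp
        rw [hρ1 q hq, ← Real.rpow_mul (Nat.cast_nonneg q)] at hc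
        have h6 : -mu' * (1 / t) = -τ := by
          rw [ht]
          have : mu' ≠ 0 := by linarith
          field_simp
        rw [h6] at hc
        exact hc.le)
      refine h5.trans (ENNReal.tsum_le_tsum fun n => ?_)
      rcases (A n).eq_empty_or_nonempty with hn | hn
      · rw [hn, Metric.ediam_empty, ENNReal.zero_rpow_of_pos hs]
        exact zero_le
      · exact le_iSup (fun _ : (A n).Nonempty => Metric.ediam (A n) ^ s) hn
    rw [hzero] at h4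
    have h5 : ENNReal.ofReal (1 / 20) = 0 := nonpos_iff_eq_zero.1 h4
    rw [ENNReal.ofReal_eq_zero] at h5
    norm_num at h5
  refine le_of_forall_lt fun c hc => ?_
  -- choose `s` between
  obtain ⟨s, hs1, hs2⟩ := ENNReal.lt_iff_exists_real_btwn.1 hc
  obtain ⟨hs2, hs3⟩ := hs2
  have hst : s < t := (ENNReal.ofReal_lt_ofReal_iff ht0).1 hs3
  have hs0 : 0 < s := by
    have : 0 < ENNReal.ofReal s := lt_of_le_of_lt zero_le hs2
    exact ENNReal.ofReal_pos.1 this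
  have h6 := hcont s hs0 hst
  have h7 : ((Real.toNNReal s : ℝ≥0) : ℝ) = s := Real.coe_toNNReal s hs0.le
  have h8 := le_dimH_of_hausdorffMeasure_ne_zero (d := Real.toNNReal s) (s := W2 B mu τ)
    (by rw [h7]; exact h6)
  exact lt_of_lt_of_le hs2 h8

/-- below the threshold almost every number has infinitely many such approximations -/
theorem ae_W2 {mu B τ : ℝ} (h1 : 0 < mu) (h3 : mu ≤ 2) (hB : 0 < B) (hτ : τ < mu) :
    ∀ᵐ x ∂(volume : Measure ℝ), x ∈ Set.Ioo (0 : ℝ) 1 → x ∈ W2 B mu τ := by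
  obtain ⟨mu', h4, h5⟩ := exists_between (show max 0 τ < mu from max_lt h1 (by linarith))
  have h6 : 0 < mu' := lt_of_le_of_lt (le_max_left _ _) h4
  have h7 : τ < mu' := lt_of_le_of_lt (le_max_right _ _) h4
  filter_upwards [ae_approx3 h6 h5 h3 hB] with x hx hx01
  apply mem_W2_of_frequently
  refine (hx hx01).mono ?_
  rintro q ⟨p, hp, hd⟩
  refine ⟨p, hp, hd.le.trans ?_⟩
  apply Real.rpow_le_rpow_of_exponent_le _ (by linarith)
  obtain ⟨h8, h9, -⟩ := hp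
  simp only at h8 h9
  have : 1 ≤ q := by omega
  exact_mod_cast this

/-- the lower bound for the dimension -/
theorem dim_ge2 {mu B τ : ℝ} (h1 : 0 < mu) (h3 : mu ≤ 2) (hB : 0 < B) (hτ : 0 < τ) :
    ENNReal.ofReal (min 1 (mu / τ)) ≤ dimH (W2 B mu τ) := by
  rw [ENNReal.ofReal_min, ENNReal.ofReal_one]
  rcases lt_or_ge τ mu with h | h
  · refine (min_le_left _ _).trans ?_
    have h4 : (volume : Measure ℝ) (W2 B mu τ) ≠ 0 := by
      intro hzero
      have h5 : (volume : Measure ℝ) (Set.Ioo (0 : ℝ) 1) ≤ volume (W2 B mu τ) := by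
        apply measure_mono_ae
        filter_upwards [ae_W2 h1 h3 hB h] with x hx hx01
        exact hx hx01
      rw [hzero, Real.volume_Ioo] at h5
      norm_num at h5
    rw [← hausdorffMeasure_real] at h4
    have h6 := le_dimH_of_hausdorffMeasure_ne_zero (d := 1) (s := W2 B mu τ)
      (by rw [NNReal.coe_one]; exact h4)
    simpa using h6
  · refine (min_le_right _ _).trans ?_
    have h5 : Tendsto (fun x : ℝ => ENNReal.ofReal (x / τ)) (𝓝[<] mu)
        (𝓝 (ENNReal.ofReal (mu / τ))) := by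
      apply ENNReal.tendsto_ofReal
      apply Tendsto.mono_left _ nhdsWithin_le_nhds
      exact Continuous.tendsto (by fun_prop) mu
    refine le_of_tendsto h5 ?_
    have h6 : ∀ᶠ x : ℝ in 𝓝[<] mu, 0 < x := by
      apply eventually_nhdsWithin_of_eventually_nhds
      exact lt_mem_nhds h1
    filter_upwards [h6, self_mem_nhdsWithin] with x hx hx'
    have hx'' : x < mu := hx'
    exact dim_lower2 hx hx'' h3 hB (by linarith)

end Pool.Agent.R479.DB
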