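import Mathlib

/-!
# Countability of a number field and of the set of its primes
-/

set_option autoImplicit false

namespace Pool.Agent.R479.DB

open NumberField IsDedekindDomain

theorem countable_nf (K : Type) [Field K] [NumberField K] : Countable K :=
  (Module.finBasis ℚ K).equivFun.injective.countable

theorem countable_ideals {R : Type} [CommRing R] [Countable R] [IsNoetherianRing R] :
    Countable (Ideal R) := by
  have : Function.Surjective (fun s : Finset R => Ideal.span (s : Set R)) := fun I =>
    (isNoetherian_def.1 inferInstance I)
  exact this.countable

theorem countable_primes (K : Type) [Field K] [NumberField K] :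
    Countable (HeightOneSpectrum (𝓞 K)) := by
  have := countable_nf K
  have : Countable (𝓞 K) := (FaithfulSMul.algebraMap_injective (𝓞 K) K).countable
  have := countable_ideals (R := 𝓞 K)
  have hinj : Function.Injective (HeightOneSpectrum.asIdeal (R := 𝓞 K)) :=
    fun v w h => HeightOneSpectrum.ext h
  exact hinj.countable

end Pool.Agent.R479.DB
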