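import Pool.Agent.R479.DA.Lim

/-!
# The Hausdorff dimension of the points of a metric space approximated by a thin countable set
-/

set_option autoImplicit false

namespace Pool.Agent.R479.DB

open Filter Topology MeasureTheory Finset
open scoped ENNReal NNReal

/-- **Limsup sets.** If the sets `U i` have diameters at most `d i`, and the sum of the
`(d i) ^ D` converges, then the points in infinitely many of the `U i` form a set of dimension at
most `D`. -/
theorem dimH_limsup {X : Type} [MetricSpace X] {ι : Type} [Countable ι] (U : ι → Set X)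
    (d : ι → ℝ) (hd : ∀ i, 0 < d i)
    (hU : ∀ i, Metric.ediam (U i) ≤ ENNReal.ofReal (d i)) {D : ℝ} (hD : 0 < D)
    (hs : Summable fun i => d i ^ D) :
    dimH {x | {i | x ∈ U i}.Infinite} ≤ ENNReal.ofReal D := by
  borelize X
  have hDn : ((Real.toNNReal D : ℝ≥0) : ℝ) = D := Real.coe_toNNReal D hD.le
  have hgoal : ENNReal.ofReal D = ((Real.toNNReal D : ℝ≥0) : ℝ≥0∞) := rfl
  rw [hgoal]
  apply dimH_le_of_hausdorffMeasure_ne_top
  rw [hDn]
  -- the diameters tend to zero
  have hd0 : Tendsto d cofinite (𝓝 0) := by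
    have h1 := hs.tendsto_cofinite_zero
    have h2 : Tendsto (fun i => (d i ^ D) ^ (1 / D)) cofinite (𝓝 (0 ^ (1 / D))) :=
      h1.rpow_const (Or.inr (by positivity))
    rw [Real.zero_rpow (by positivity)] at h2
    refine h2.congr fun i => ?_
    rw [← Real.rpow_mul (hd i).le, mul_one_div_cancel hD.ne', Real.rpow_one]
  set r : Finset ι → ℝ≥0∞ := fun F => ⨆ i : {i // i ∉ F}, ENNReal.ofReal (d i) with hr
  have hrt : Tendsto r atTop (𝓝 0) := by
    rw [ENNReal.tendsto_nhds_zero]
    intro ε hε
    have h1 := ENNReal.tendsto_ofReal hd0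
    rw [ENNReal.ofReal_zero] at h1
    have h2 := h1.eventually (ge_mem_nhds hε)
    rw [Filter.eventually_cofinite] at h2
    filter_upwards [eventually_ge_atTop h2.toFinset] with F hF
    refine iSup_le fun i => ?_
    by_contra hcon
    apply i.2
    apply hF
    rw [Set.Finite.mem_toFinset]
    exact hcon
  have key := Measure.hausdorffMeasure_le_liminf_tsum (X := X) (β := Finset ι)
    (ι := fun F => {i // i ∉ F}) D {x | {i | x ∈ U i}.Infinite} (l := atTop) r hrt
    (fun F i => U i)
    (Eventually.of_forall fun F i =>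
      (hU i).trans (le_iSup (fun i : {i // i ∉ F} => ENNReal.ofReal (d i)) i))
    (Eventually.of_forall fun F x hx => by
      obtain ⟨i, hi, hiF⟩ := hx.exists_notMem_finset F
      rw [Set.mem_iUnion]
      exact ⟨⟨i, hiF⟩, hi⟩)
  refine ne_top_of_le_ne_top ?_ key
  have hnn : ∀ i, 0 ≤ d i ^ D := fun i => Real.rpow_nonneg (hd i).le _
  have htot : (∑' i, ENNReal.ofReal (d i ^ D)) ≠ ⊤ := by
    rw [← ENNReal.ofReal_tsum_of_nonneg hnn hs]
    exact ENNReal.ofReal_ne_top
  have hbound : ∀ F : Finset ι, (∑' i : {i // i ∉ F}, Metric.ediam (U i) ^ D) ≤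
      ∑' i, ENNReal.ofReal (d i ^ D) := by
    intro F
    calc (∑' i : {i // i ∉ F}, Metric.ediam (U i) ^ D)
        ≤ ∑' i : {i // i ∉ F}, ENNReal.ofReal (d i ^ D) := by
          apply ENNReal.tsum_le_tsum
          intro i
          rw [← ENNReal.ofReal_rpow_of_pos (hd i)]
          exact ENNReal.rpow_le_rpow (hU i) hD.le
      _ ≤ ∑' i, ENNReal.ofReal (d i ^ D) :=
          ENNReal.tsum_comp_le_tsum_of_injective (f := fun i : {i // i ∉ F} => (i : ι))
            Subtype.val_injective (fun i => ENNReal.ofReal (d i ^ D))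
  refine ne_top_of_le_ne_top htot ?_
  apply Filter.liminf_le_of_le
  · isBoundedDefault
  · intro b hb
    obtain ⟨n, hn⟩ := hb.exists
    exact hn.trans (hbound n)

/-- **Points approximated by a thin countable set.** Let `P` be a set of elements `x` of height
`H x ≥ 1`, with at most `C B ^ (s + ε)` elements of height at most `B` for every `ε > 0`. The points
`z` with `dist z (σ x) ≤ H x ^ (-τ)` for infinitely many members of `P` form a set of dimension at
most `s / τ`. -/
theorem dimH_approx {X : Type} [MetricSpace X] {K : Type} [Countable K] (σ : K → X) (P : Set K)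
    (H : K → ℝ) (hH : ∀ x, 1 ≤ H x) {s τ : ℝ} (hs : 0 ≤ s) (hτ : 0 < τ)
    (hcount : ∀ ε : ℝ, 0 < ε → ∃ C : ℝ, ∀ B : ℝ, 1 ≤ B → {x | x ∈ P ∧ H x ≤ B}.Finite ∧
      (({x | x ∈ P ∧ H x ≤ B}.ncard : ℕ) : ℝ) ≤ C * B ^ (s + ε)) :
    dimH {z : X | {x | x ∈ P ∧ dist z (σ x) ≤ H x ^ (-τ)}.Infinite} ≤ ENNReal.ofReal (s / τ) := by
  apply ENNReal.le_of_forall_pos_le_add
  intro ε hε _
  have hε' : (0 : ℝ) < ε := by exact_mod_cast hε
  rw [← ENNReal.ofReal_coe_nnreal (p := ε), ← ENNReal.ofReal_add (by positivity) hε'.le]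
  set D : ℝ := s / τ + ε with hD
  have hD0 : 0 < D := by positivity
  have hDτ : D * τ = s + ε * τ := by
    rw [hD, add_mul, div_mul_cancel₀ _ hτ.ne']
  obtain ⟨C, hC⟩ := hcount (ε * τ / 2) (by positivity)
  have hpos : ∀ x : K, 0 < H x := fun x => lt_of_lt_of_le one_pos (hH x)
  set U : P → Set X := fun x => Metric.closedBall (σ x.1) (H x.1 ^ (-τ)) with hU
  have h1 := dimH_limsup U (fun x => 2 * H x.1 ^ (-τ)) (fun x => by
      have := hpos x.1
      positivity) (fun x => by
        rw [hU]
        simp only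
        have h0 : 0 ≤ H x.1 ^ (-τ) := Real.rpow_nonneg (hpos x.1).le _
        refine Metric.ediam_le_of_forall_dist_le fun a ha b hb => ?_
        rw [Metric.mem_closedBall] at ha hb
        have := dist_triangle_right a b (σ x.1)
        linarith) hD0 (by
      have h2 := Pool.Agent.R479.DA.summable_heights (ι := P) (fun x => H x.1)
        (fun x => hH x.1) (s := s + ε * τ / 2) (p := D * τ) (C := C)
        (by rw [hDτ]; nlinarith [mul_pos hε' hτ]) (by positivity) (by
          intro B hB
          obtain ⟨hfin, hle⟩ := hC B hB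
          have hinj : Set.InjOn (Subtype.val : P → K) {x | H x.1 ≤ B} :=
            Subtype.val_injective.injOn
          have himg : (Subtype.val : P → K) '' {x | H x.1 ≤ B} = {x | x ∈ P ∧ H x ≤ B} := by
            ext t
            constructor
            · rintro ⟨u, hu, rfl⟩
              exact ⟨u.2, hu⟩
            · rintro ⟨ht, htX⟩
              exact ⟨⟨t, ht⟩, htX, rfl⟩
          refine ⟨Set.Finite.of_finite_image (by rw [himg]; exact hfin) hinj, ?_⟩
          rw [← hinj.ncard_image, himg]
          exact hle)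
      refine (h2.mul_left ((2 : ℝ) ^ D)).congr fun x => ?_
      have := hpos x.1
      rw [Real.mul_rpow (by norm_num) (by positivity), ← Real.rpow_mul this.le]
      congr 2
      ring)
  refine le_trans (dimH_mono ?_) h1
  intro z hz
  simp only [Set.mem_ofPred_eq] at hz ⊢
  have himg : (Subtype.val : P → K) '' {x | z ∈ U x} =
      {x | x ∈ P ∧ dist z (σ x) ≤ H x ^ (-τ)} := by
    ext t
    constructor
    · rintro ⟨u, hu, rfl⟩
      refine ⟨u.2, ?_⟩
      have hu' : z ∈ U u := hu
      rw [hU, Metric.mem_closedBall] at hu'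
      exact hu'
    · rintro ⟨ht, htX⟩
      refine ⟨⟨t, ht⟩, ?_, rfl⟩
      show z ∈ U ⟨t, ht⟩
      rw [hU, Metric.mem_closedBall]
      exact htX
  rw [← himg] at hz
  exact fun hfin => hz (hfin.image _)

end Pool.Agent.R479.DB
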