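import Pool.Agent.R365.AK.Main
import Pool.Agent.R365.QP.Main
import Pool.Agent.R479.DB.Lim
import Pool.Agent.R479.DB.Cnt

/-!
# The dimension of the set of the points whose approximations violate the truncated inequality
-/

set_option autoImplicit false

namespace Pool.Agent.R479.DB

open NumberField IsDedekindDomain
open scoped ENNReal

/-- the absolute logarithmic height of the point `[x : 1]` -/
noncomputable def height {K : Type} [Field K] [NumberField K] (x : K) : ℝ :=
  (∑ w : InfinitePlace K, (w.mult : ℝ) * Real.log (max (w x) (w 1)) +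
    ∑ᶠ v : HeightOneSpectrum (RingOfIntegers K),
      Real.log (max (FinitePlace.mk v x) (FinitePlace.mk v 1))) /
    (Module.finrank ℚ K : ℝ)

/-- the truncated counting function of the point `[x : 1]` with respect to the points
`[(α l).1 : (α l).2]` -/
noncomputable def counting {K : Type} [Field K] [NumberField K]
    (T : Set (HeightOneSpectrum (RingOfIntegers K))) {q : ℕ} (α : Fin q → K × K) (x : K) : ℝ :=
  ∑ᶠ (v : HeightOneSpectrum (RingOfIntegers K)) (_ : v ∉ T),
    ∑ l : Fin q,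
      min
        (Real.log
            (max (FinitePlace.mk v x) (FinitePlace.mk v 1) *
              max (FinitePlace.mk v (α l).1) (FinitePlace.mk v (α l).2) /
              FinitePlace.mk v (x * (α l).2 - 1 * (α l).1)) /
          (Module.finrank ℚ K : ℝ))
        (Real.log (Ideal.absNorm v.asIdeal : ℝ) / (Module.finrank ℚ K : ℝ))

/-- the exceptional points -/
def exc {K : Type} [Field K] [NumberField K]
    (T : Set (HeightOneSpectrum (RingOfIntegers K))) {q : ℕ} (α : Fin q → K × K)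
    (κ c : ℝ) : Set K :=
  {x : K | (∀ l, x * (α l).2 - 1 * (α l).1 ≠ 0) ∧ counting T α x < ((q : ℝ) - κ) * height x + c}

/-- the exponent -/
noncomputable def G (u : ℝ) : ℝ :=
  if u < 1 then 2 - u
  else if u < 4 / 3 then 1
  else if u < 3 / 2 then 7 / 3 - u
  else if u < 12 / 7 then 5 * (3 - u) / 9
  else if u < 2 then 5 * (26 - 9 * u) / 74
  else if u < 38 / 15 then (58 - 19 * u) / 37
  else 4 * (3 - u) / 7

theorem G_eq (u : ℝ) : Pool.Agent.R365.AK.eK (3 - u) = G u := by
  unfold Pool.Agent.R365.AK.eK G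
  split_ifs <;> linarith

theorem G_nonneg {u : ℝ} (hu : u < 3) : 0 ≤ G u := by
  rw [← G_eq]
  exact Pool.Agent.R365.AK.eK_nonneg (by linarith)

section
variable {K : Type} [Field K] [NumberField K]

theorem finrank_pos' : (0 : ℝ) < (Module.finrank ℚ K : ℝ) := by
  exact_mod_cast Module.finrank_pos

theorem height_eq (x : K) :
    (Module.finrank ℚ K : ℝ) * height x = Pool.Agent.H691R3.hr (Pool.Agent.H691R3.aff x) := by
  unfold height
  rw [mul_div_cancel₀ _ finrank_pos'.ne']
  rfl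

theorem counting_eq (T : Set (HeightOneSpectrum (RingOfIntegers K))) {q : ℕ} (α : Fin q → K × K)
    (x : K) : (Module.finrank ℚ K : ℝ) * counting T α x = Pool.Agent.H691R3.NTc T α x := by
  classical
  unfold counting Pool.Agent.H691R3.NTc
  rw [mul_finsum]
  refine finsum_congr fun v => ?_
  rw [finsum_eq_if, finsum_eq_if]
  split_ifs with hv
  · rw [mul_zero]
  rw [Finset.mul_sum]
  refine Finset.sum_congr rfl fun l _ => ?_
  rw [mul_min_of_nonneg _ _ finrank_pos'.le, mul_div_cancel₀ _ finrank_pos'.ne',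
    mul_div_cancel₀ _ finrank_pos'.ne']
  rfl

theorem height_nonneg (x : K) : 0 ≤ height x := by
  unfold height
  refine div_nonneg (add_nonneg (Finset.sum_nonneg fun w _ => mul_nonneg (Nat.cast_nonneg _)
    (Real.log_nonneg ?_)) (finsum_nonneg fun v => Real.log_nonneg ?_)) finrank_pos'.le
  · exact (by rw [map_one] : (1 : ℝ) = w 1).le.trans (le_max_right _ _)
  · exact (by rw [map_one] : (1 : ℝ) = FinitePlace.mk v (1 : K)).le.trans (le_max_right _ _)

/-- the number of exceptional points (proof as in the hand-in of helper365) -/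
theorem count (T : Set (HeightOneSpectrum (RingOfIntegers K))) (hT : T.Finite) (q : ℕ) (hq : 3 ≤ q)
    (α : Fin q → K × K) (hα0 : ∀ i, α i ≠ 0)
    (hα : ∀ i j, i ≠ j → (α i).1 * (α j).2 - (α i).2 * (α j).1 ≠ 0) (κ c δ : ℝ) (hκ0 : 0 ≤ κ)
    (hκq : κ < q) (hδ : 0 < δ) :
    ∃ C : ℝ, ∀ B : ℝ, 1 ≤ B → {x | x ∈ exc T α κ c ∧ Real.exp (height x) ≤ B}.Finite ∧
      ({x | x ∈ exc T α κ c ∧ Real.exp (height x) ≤ B}.ncard : ℝ) ≤
        C * B ^ ((Module.finrank ℚ K : ℝ) * G (3 * κ / q) + δ) := by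
  classical
  set d : ℝ := (Module.finrank ℚ K : ℝ) with hd
  have hdpos : 0 < d := finrank_pos'
  have hqR : (0 : ℝ) < q := by
    have : 0 < q := by omega
    exact_mod_cast this
  have hheight : ∀ x : K, d * height x = Pool.Agent.H691R3.hr (Pool.Agent.H691R3.aff x) :=
    fun x => height_eq x
  have hcount : ∀ x : K, d * counting T α x = Pool.Agent.H691R3.NTc T α x :=
    fun x => counting_eq T α x
  set u : ℝ := 3 * κ / q with hu
  have hu3 : u < 3 := by
    rw [hu, div_lt_iff₀ hqR]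
    linarith
  have hu0 : 0 ≤ u := by rw [hu]; positivity
  have he0 : 0 ≤ G u := G_nonneg hu3
  have hF := Pool.Agent.R365.AK.main3 K (3 - u) (by linarith) (by linarith)
  rw [G_eq] at hF
  obtain ⟨C, hC, hmain⟩ := Pool.Agent.R365.QP.count_q hq T hT α hα0 hα κ hκq he0 hF (d * c)
    (δ / d) (div_pos hδ hdpos)
  refine ⟨C, fun B hB => ?_⟩
  have hB0 : 0 < B := by linarith
  have hlogB : 0 ≤ Real.log B := Real.log_nonneg hB
  set V : Set K := {x | x ∈ exc T α κ c ∧ Real.exp (height x) ≤ B} with hV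
  have hbound : ∀ E : Finset K, (E : Set K) ⊆ V → (E.card : ℝ) ≤ C * B ^ (d * G u + δ) := by
    intro E hE
    have h1 := hmain (d * Real.log B) E (mul_nonneg hdpos.le hlogB) ?_
    · refine h1.trans (le_of_eq ?_)
      rw [Real.rpow_def_of_pos hB0]
      congr 2
      field_simp
    · intro x hx
      obtain ⟨⟨h2, h4⟩, h3⟩ := hE hx
      refine ⟨h2, ?_, ?_⟩
      · rw [← hcount, ← hheight]
        have h5 : d * counting T α x < d * (((q : ℝ) - κ) * height x + c) :=
          mul_lt_mul_of_pos_left h4 hdpos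
        have h6 : d * (((q : ℝ) - κ) * height x + c) =
            ((q : ℝ) - κ) * (d * height x) + d * c := by ring
        rw [h6] at h5
        exact h5
      · rw [← hheight]
        refine mul_le_mul_of_nonneg_left ?_ hdpos.le
        rw [Real.le_log_iff_exp_le hB0]
        exact h3
  have hnn : 0 ≤ C * B ^ (d * G u + δ) := by positivity
  have hfin : V.Finite := by
    by_contra hinf
    obtain ⟨E, hEV, hEc⟩ := Set.Infinite.exists_subset_card_eq hinf
      (⌊C * B ^ (d * G u + δ)⌋₊ + 1)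
    have h1 := hbound E hEV
    have h2 := Nat.lt_floor_add_one (C * B ^ (d * G u + δ))
    rw [hEc] at h1
    push_cast at h1
    linarith
  refine ⟨hfin, ?_⟩
  rw [Set.ncard_eq_toFinset_card _ hfin]
  exact hbound hfin.toFinset (by rw [Set.Finite.coe_toFinset])

/-- one finite subset -/
theorem dim_one {X : Type} [MetricSpace X] (σ : K → X)
    (T : Set (HeightOneSpectrum (RingOfIntegers K))) (hT : T.Finite) (q : ℕ) (hq : 3 ≤ q)
    (α : Fin q → K × K) (hα0 : ∀ i, α i ≠ 0)
    (hα : ∀ i j, i ≠ j → (α i).1 * (α j).2 - (α i).2 * (α j).1 ≠ 0) (κ c τ : ℝ) (hκ0 : 0 ≤ κ)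
    (hκq : κ < q) (hτ : 0 < τ) :
    dimH {z : X | {x | x ∈ exc T α κ c ∧ dist z (σ x) ≤ Real.exp (height x) ^ (-τ)}.Infinite} ≤
      ENNReal.ofReal ((Module.finrank ℚ K : ℝ) * G (3 * κ / q) / τ) := by
  have := countable_nf K
  have hqR : (0 : ℝ) < q := by
    have : 0 < q := by omega
    exact_mod_cast this
  refine dimH_approx σ (exc T α κ c) (fun x => Real.exp (height x))
    (fun x => Real.one_le_exp (height_nonneg x)) (mul_nonneg finrank_pos'.le (G_nonneg ?_)) hτ
    (fun ε hε => count T hT q hq α hα0 hα κ c ε hκ0 hκq hε)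
  rw [div_lt_iff₀ hqR]
  linarith

/-- all finite subsets at once -/
theorem dim_all {X : Type} [MetricSpace X] (σ : K → X) (t τ : ℝ) (ht0 : 0 ≤ t) (ht3 : t < 3)
    (hτ : 0 < τ) :
    dimH {z : X | ∃ (T : Set (HeightOneSpectrum (RingOfIntegers K))) (q : ℕ) (α : Fin q → K × K)
        (c : ℝ), T.Finite ∧ 3 ≤ q ∧ (∀ i, α i ≠ 0) ∧
        (∀ i j, i ≠ j → (α i).1 * (α j).2 - (α i).2 * (α j).1 ≠ 0) ∧
        {x | x ∈ exc T α (t * q / 3) c ∧ dist z (σ x) ≤ Real.exp (height x) ^ (-τ)}.Infinite} ≤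
      ENNReal.ofReal ((Module.finrank ℚ K : ℝ) * G t / τ) := by
  have := countable_nf K
  have := countable_primes K
  set J := Finset (HeightOneSpectrum (RingOfIntegers K)) × (Σ q : ℕ, (Fin q → K × K)) × ℕ with hJ
  have hJc : Countable J := inferInstance
  set Z : J → Set X := fun j => {z : X | (3 ≤ j.2.1.1 ∧ (∀ i, j.2.1.2 i ≠ 0) ∧
    (∀ i k, i ≠ k → (j.2.1.2 i).1 * (j.2.1.2 k).2 - (j.2.1.2 i).2 * (j.2.1.2 k).1 ≠ 0)) ∧
    {x | x ∈ exc (j.1 : Set (HeightOneSpectrum (RingOfIntegers K))) j.2.1.2 (t * j.2.1.1 / 3)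
      (j.2.2 : ℝ) ∧ dist z (σ x) ≤ Real.exp (height x) ^ (-τ)}.Infinite} with hZ
  refine le_trans (dimH_mono (t := ⋃ j, Z j) ?_) ?_
  · rintro z ⟨T, q, α, c, hT, hq, h1, h2, h3⟩
    rw [Set.mem_iUnion]
    obtain ⟨n, hn⟩ := exists_nat_ge c
    refine ⟨(hT.toFinset, ⟨q, α⟩, n), ⟨hq, h1, h2⟩, h3.mono ?_⟩
    rintro x ⟨⟨h4, h5⟩, h6⟩
    refine ⟨⟨h4, ?_⟩, h6⟩
    simp only [Set.Finite.coe_toFinset]
    linarith
  · rw [dimH_iUnion]
    refine iSup_le fun j => ?_
    obtain ⟨T, ⟨q, α⟩, n⟩ := j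
    by_cases h : 3 ≤ q ∧ (∀ i, α i ≠ 0) ∧
      (∀ i k, i ≠ k → (α i).1 * (α k).2 - (α i).2 * (α k).1 ≠ 0)
    · have hqR : (0 : ℝ) < q := by
        have : 0 < q := by omega
        exact_mod_cast this
      have h1 := dim_one σ (T : Set (HeightOneSpectrum (RingOfIntegers K))) T.finite_toSet q h.1 α
        h.2.1 h.2.2 (t * q / 3) n τ (by positivity) (by nlinarith) hτ
      have h2 : 3 * (t * q / 3) / q = t := by field_simp
      rw [h2] at h1
      exact (dimH_mono fun z hz => hz.2).trans h1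
    · have : Z (T, ⟨q, α⟩, n) = ∅ := by
        rw [Set.eq_empty_iff_forall_notMem]
        exact fun z hz => h hz.1
      rw [this, dimH_empty]
      exact zero_le

end

end Pool.Agent.R479.DB
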