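import Pool.Agent.R479.DB.Ae2
import Pool.Agent.R479.DB.Lim
import Pool.Agent.R479.DB.Cnt

/-!
# Transfer by a fractional linear map
-/

set_option autoImplicit false

namespace Pool.Agent.R479.DB

open Filter Topology MeasureTheory
open scoped ENNReal NNReal

/-- the fractional linear map -/
noncomputable def mb (a b c e : ℝ) (y : ℝ) : ℝ := (y * a + b) / (y * c + e)

theorem mb_sub {a b c e y y' : ℝ} (h : y * c + e ≠ 0) (h' : y' * c + e ≠ 0) :
    mb a b c e y - mb a b c e y' = (a * e - b * c) * (y - y') / ((y * c + e) * (y' * c + e)) := by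
  unfold mb
  rw [div_sub_div _ _ h h']
  congr 1
  ring

theorem mb_lip {a b c e η : ℝ} (hη : 0 < η) {y y' : ℝ} (h : η ≤ |y * c + e|)
    (h' : η ≤ |y' * c + e|) :
    |mb a b c e y - mb a b c e y'| ≤ |a * e - b * c| / η ^ 2 * |y - y'| := by
  have h1 : y * c + e ≠ 0 := fun h0 => by rw [h0, abs_zero] at h; linarith
  have h2 : y' * c + e ≠ 0 := fun h0 => by rw [h0, abs_zero] at h'; linarith
  rw [mb_sub h1 h2, abs_div, abs_mul, abs_mul, div_mul_eq_mul_div]
  have h3 : η ^ 2 ≤ |y * c + e| * |y' * c + e| := by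
    rw [sq]
    exact mul_le_mul h h' hη.le (abs_nonneg _)
  exact div_le_div_of_nonneg_left (by positivity) (by positivity) h3

theorem mb_anti {a b c e M : ℝ} (hdet : a * e - b * c ≠ 0) {y y' : ℝ} (h0 : y * c + e ≠ 0)
    (h0' : y' * c + e ≠ 0) (h : |y * c + e| ≤ M) (h' : |y' * c + e| ≤ M) :
    |y - y'| ≤ M ^ 2 / |a * e - b * c| * |mb a b c e y - mb a b c e y'| := by
  rw [mb_sub h0 h0', abs_div, abs_mul, abs_mul]
  have hd : 0 < |a * e - b * c| := abs_pos.2 hdet
  have h1 : 0 < |y * c + e| := abs_pos.2 h0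
  have h2 : 0 < |y' * c + e| := abs_pos.2 h0'
  have h3 : |y * c + e| * |y' * c + e| ≤ M ^ 2 := by
    rw [sq]
    exact mul_le_mul h h' h2.le (h1.le.trans h)
  have h4 : M ^ 2 / |a * e - b * c| * (|a * e - b * c| * |y - y'| / (|y * c + e| * |y' * c + e|)) =
      M ^ 2 * |y - y'| / (|y * c + e| * |y' * c + e|) := by
    field_simp
  rw [h4, le_div_iff₀ (mul_pos h1 h2)]
  have h5 := abs_nonneg (y - y')
  nlinarith

/-- the dimension of a set of numbers is at most that of its image under the map -/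
theorem dim_image_mb {a b c e : ℝ} (hdet : a * e - b * c ≠ 0) (E W : Set ℝ)
    (h0 : ∀ y ∈ E, y * c + e ≠ 0) {M : ℝ} (hM : ∀ y ∈ E, |y * c + e| ≤ M)
    (hW : ∀ y ∈ E, mb a b c e y ∈ W) : dimH E ≤ dimH W := by
  set g : ℝ → ℝ := fun ξ => (b - ξ * e) / (ξ * c - a) with hg
  have hgm : ∀ y ∈ E, g (mb a b c e y) = y := by
    intro y hy
    have h1 := h0 y hy
    have h2 : mb a b c e y * c - a = (b * c - a * e) / (y * c + e) := by
      unfold mb
      field_simp
      ring
    have h3 : b - mb a b c e y * e = y * (b * c - a * e) / (y * c + e) := by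
      unfold mb
      field_simp
      ring
    simp only [hg]
    rw [h2, h3]
    have h4 : b * c - a * e ≠ 0 := fun h => hdet (by linarith)
    field_simp
  set L : ℝ≥0 := Real.toNNReal (M ^ 2 / |a * e - b * c|) with hL
  have hL' : (L : ℝ) = M ^ 2 / |a * e - b * c| :=
    Real.coe_toNNReal _ (div_nonneg (sq_nonneg _) (abs_nonneg _))
  have hlip : LipschitzOnWith L g (mb a b c e '' E) := by
    apply LipschitzOnWith.of_dist_le_mul
    rintro _ ⟨y, hy, rfl⟩ _ ⟨y', hy', rfl⟩
    rw [hgm y hy, hgm y' hy', Real.dist_eq, Real.dist_eq, hL']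
    exact mb_anti hdet (h0 y hy) (h0 y' hy') (hM y hy) (hM y' hy')
  have h1 := hlip.dimH_image_le
  have h2 : g '' (mb a b c e '' E) = E := by
    rw [Set.image_image]
    ext y
    constructor
    · rintro ⟨z, hz, rfl⟩
      have h3 : g (mb a b c e z) ∈ E := by rwa [hgm z hz]
      exact h3
    · intro hy
      exact ⟨y, hy, hgm y hy⟩
  rw [h2] at h1
  refine h1.trans (dimH_mono ?_)
  rintro _ ⟨y, hy, rfl⟩
  exact hW y hy

/-- the dimension of a subset of `[0, 1]` is bounded by that of `W` if the map sends the part away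
from zero and from the pole into `W` -/
theorem dim_transfer {a b c e : ℝ} (hdet : a * e - b * c ≠ 0) (E W : Set ℝ)
    (hE : ∀ y ∈ E, 0 ≤ y ∧ y ≤ 1)
    (hW : ∀ η : ℝ, 0 < η → ∀ y ∈ E, η ≤ y → η ≤ |y * c + e| → mb a b c e y ∈ W) :
    dimH E ≤ dimH W := by
  set J : ℕ → Set ℝ := fun i => {y | y ∈ E ∧ 1 / ((i : ℝ) + 1) ≤ y ∧
    1 / ((i : ℝ) + 1) ≤ |y * c + e|} with hJ
  have hsub : E ⊆ ({0} ∪ {y : ℝ | y * c + e = 0}) ∪ ⋃ i, J i := by
    intro y hy
    by_cases h0 : y = 0
    · exact Or.inl (Or.inl h0)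
    by_cases h1 : y * c + e = 0
    · exact Or.inl (Or.inr h1)
    right
    have hy0 : 0 < y := lt_of_le_of_ne (hE y hy).1 (Ne.symm h0)
    obtain ⟨i, hi⟩ := exists_nat_one_div_lt (lt_min hy0 (abs_pos.2 h1))
    rw [Set.mem_iUnion]
    exact ⟨i, hy, hi.le.trans (min_le_left _ _), hi.le.trans (min_le_right _ _)⟩
  refine (dimH_mono hsub).trans ?_
  rw [dimH_union, dimH_union, dimH_iUnion, dimH_singleton]
  have hpole : ({y : ℝ | y * c + e = 0}).Subsingleton := by
    intro y hy y' hy'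
    simp only [Set.mem_ofPred_eq] at hy hy'
    have hc : c ≠ 0 := by
      rintro rfl
      rw [mul_zero, zero_add] at hy
      apply hdet
      rw [hy]
      ring
    have h1 : (y - y') * c = 0 := by linarith
    rcases mul_eq_zero.1 h1 with h2 | h2
    · linarith
    · exact absurd h2 hc
  rw [hpole.dimH_zero]
  refine max_le (max_le zero_le zero_le) (iSup_le fun i => ?_)
  have hi : (0 : ℝ) < 1 / ((i : ℝ) + 1) := by positivity
  refine dim_image_mb hdet (J i) W (fun y hy h0 => ?_) (M := |c| + |e|) (fun y hy => ?_)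
    (fun y hy => hW _ hi y hy.1 hy.2.1 hy.2.2)
  · have h1 := hy.2.2
    rw [h0, abs_zero] at h1
    linarith
  · refine (abs_add_le _ _).trans ?_
    have h1 := hE y hy.1
    rw [abs_mul, abs_of_nonneg h1.1]
    have h2 := abs_nonneg c
    nlinarith

end Pool.Agent.R479.DB
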