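import Pool.Agent.R479.DB.Pts
import Pool.Agent.R479.DB.Trans

/-!
# Numbers with many approximations that violate the truncated inequality
-/

set_option autoImplicit false

namespace Pool.Agent.R479.DB

open NumberField IsDedekindDomain Height Filter Topology MeasureTheory
open Pool.Agent.H691R3 Pool.Agent.W221.Exc
open Pool.Agent.H785R2.ABC (rad)
open scoped ENNReal NNReal

/-- the exceptional points -/
def ex {K : Type} [Field K] [NumberField K]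
    (T : Set (HeightOneSpectrum (RingOfIntegers K))) {q : ℕ} (α : Fin q → K × K)
    (κ c : ℝ) : Set K :=
  {x : K | (∀ l, x * (α l).2 - 1 * (α l).1 ≠ 0) ∧
    Pool.Agent.W221.Exc.counting T α x < ((q : ℝ) - κ) * Pool.Agent.W221.Exc.height x + c}

/-- the numbers with infinitely many exceptional approximations -/
def WE (T : Set (HeightOneSpectrum (RingOfIntegers ℚ))) {q : ℕ} (α : Fin q → ℚ × ℚ)
    (κ c τ : ℝ) : Set ℝ :=
  {ξ | {x : ℚ | x ∈ ex T α κ c ∧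
    dist ξ (x : ℝ) ≤ Real.exp (Pool.Agent.W221.Exc.height x) ^ (-τ)}.Infinite}

theorem height_Q (x : ℚ) : Pool.Agent.W221.Exc.height x = Real.log (mulHeight₁ x) := by
  have h1 := height_mul x
  rw [hr_aff_eq, Module.finrank_self, Nat.cast_one, one_mul] at h1
  exact h1

theorem exp_height_Q (x : ℚ) : Real.exp (Pool.Agent.W221.Exc.height x) = mulHeight₁ x := by
  rw [height_Q, Real.exp_log (mulHeight₁_pos x)]

theorem frequently_of_mem_W2 {B mu τ x : ℝ} (h : x ∈ W2 B mu τ) :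
    ∃ᶠ q : ℕ in atTop, ∃ p : ℕ, (p, q) ∈ S2 B mu ∧ |x - (p : ℝ) / q| ≤ (q : ℝ) ^ (-τ) := by
  rw [Filter.frequently_atTop]
  intro N
  by_contra hcon
  push Not at hcon
  apply h
  refine ((Finset.range N ×ˢ Finset.range N).finite_toSet).subset ?_
  rintro ⟨p, q⟩ ⟨h1, h2⟩
  have h3 : q < N := by
    by_contra h4
    push Not at h4
    have := hcon q h4 p h1
    simp only at h2
    linarith
  have h4 : p < q := h1.2.1
  rw [Finset.mem_coe, Finset.mem_product, Finset.mem_range, Finset.mem_range]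
  exact ⟨by omega, h3⟩

theorem W2_sub {B mu τ x : ℝ} (hτ : 0 < τ) (h : x ∈ W2 B mu τ) : 0 ≤ x ∧ x ≤ 1 := by
  have h1 := frequently_of_mem_W2 h
  have h0 : Tendsto (fun q : ℕ => (q : ℝ) ^ (-τ)) atTop (𝓝 0) :=
    (tendsto_rpow_neg_atTop hτ).comp tendsto_natCast_atTop_atTop
  have key : ∀ ε : ℝ, 0 < ε → ∃ z : ℝ, 0 ≤ z ∧ z ≤ 1 ∧ |x - z| ≤ ε := by
    intro ε hε
    obtain ⟨q, ⟨p, hp, hd⟩, hq⟩ := (h1.and_eventually (h0.eventually_le_const hε)).exists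
    refine ⟨(p : ℝ) / q, by positivity, ?_, hd.trans hq⟩
    have h2 : p < q := hp.2.1
    have h3 : (0 : ℝ) < q := by exact_mod_cast (by omega : 0 < q)
    rw [div_le_one h3]
    exact_mod_cast h2.le
  constructor
  · apply le_of_forall_pos_le_add
    intro ε hε
    obtain ⟨z, h2, h3, h4⟩ := key ε hε
    have := (abs_le.1 h4).1
    linarith
  · apply le_of_forall_pos_le_add
    intro ε hε
    obtain ⟨z, h2, h3, h4⟩ := key ε hε
    have := (abs_le.1 h4).2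
    linarith

theorem xp_cast (r1 r2 : ℚ × ℚ) (y : ℚ) :
    ((xp r1 r2 y : ℚ) : ℝ) = mb r2.1 r1.1 r2.2 r1.2 y := by
  unfold xp pt mb
  push_cast
  rfl

/-- the fractions near `y` give exceptional points near the image of `y` -/
theorem ev_good (T : Set (HeightOneSpectrum (RingOfIntegers ℚ))) {q : ℕ} (α : Fin q → ℚ × ℚ)
    (hα0 : ∀ l, α l ≠ 0) (hα : ∀ i j, i ≠ j → wg (α i) (α j) ≠ 0) (l1 l2 : Fin q) (hl12 : l1 ≠ l2)
    (κ c0 mu τ τ' : ℝ) (hκ : 0 ≤ κ) (hmu : mu < 2 - κ) (hτ : 0 < τ) (hτ' : τ < τ')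
    (η : ℝ) (hη : 0 < η) (y : ℝ) (hy : η ≤ y)
    (hy2 : η ≤ |y * ((α l2).2 : ℝ) + ((α l1).2 : ℝ)|) :
    ∀ᶠ Q : ℕ in atTop, ∀ P : ℕ, (P, Q) ∈ S2 1 mu → |y - (P : ℝ) / Q| ≤ (Q : ℝ) ^ (-τ') →
      ((P : ℚ) / (Q : ℚ)) ∉ exc α (α l1) (α l2) →
      xp (α l1) (α l2) ((P : ℚ) / (Q : ℚ)) ∈ ex T α κ c0 ∧
      dist (mb ((α l2).1 : ℝ) ((α l1).1 : ℝ) ((α l2).2 : ℝ) ((α l1).2 : ℝ) y)
        ((xp (α l1) (α l2) ((P : ℚ) / (Q : ℚ)) : ℚ) : ℝ) ≤
        Real.exp (Pool.Agent.W221.Exc.height (xp (α l1) (α l2) ((P : ℚ) / (Q : ℚ)))) ^ (-τ) := by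
  set r1 := α l1 with hr1
  set r2 := α l2 with hr2
  have hτ'0 : 0 < τ' := hτ.trans hτ'
  obtain ⟨C3, hC3⟩ := NTc_y T α hα0 hα l1 l2 hl12
  obtain ⟨C4, hC40, hC4⟩ := mob_height (K := ℚ) r2.1 r1.1 r2.2 r1.2
  set a : ℝ := (r2.1 : ℝ) with ha
  set b : ℝ := (r1.1 : ℝ) with hb
  set c : ℝ := (r2.2 : ℝ) with hc
  set e : ℝ := (r1.2 : ℝ) with he
  set L : ℝ := |a * e - b * c| / (η / 2) ^ 2 with hL
  have hL0 : 0 ≤ L := by positivity
  -- the limits
  have hneg : Tendsto (fun Q : ℕ => (Q : ℝ) ^ (-τ')) atTop (𝓝 0) :=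
    (tendsto_rpow_neg_atTop hτ'0).comp tendsto_natCast_atTop_atTop
  have hpos : Tendsto (fun Q : ℕ => (Q : ℝ) ^ (τ' - τ)) atTop atTop :=
    (tendsto_rpow_atTop (by linarith)).comp tendsto_natCast_atTop_atTop
  have hlog : Tendsto (fun Q : ℕ => (2 - κ - mu) * Real.log (Q : ℝ)) atTop atTop :=
    (Real.tendsto_log_atTop.comp tendsto_natCast_atTop_atTop).const_mul_atTop (by linarith)
  have hcc : 0 < η / (2 * (|c| + 1)) := by positivity
  filter_upwards [hneg.eventually_le_const (show 0 < η / 2 by positivity),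
    hneg.eventually_le_const hcc, hpos.eventually_ge_atTop (L * C4 ^ τ),
    hlog.eventually_gt_atTop (C3 - Real.log (η / 2) + κ * Real.log C4 - c0),
    eventually_ge_atTop 1] with Q e1 e2 e3 e4 e5 P hP hd hex
  obtain ⟨hP0, hPQ, hco, hrad⟩ := hP
  simp only at hP0 hPQ hco hrad
  have hQ0 : 0 < Q := e5
  have hQr : (0 : ℝ) < Q := by exact_mod_cast hQ0
  have hPr : (0 : ℝ) < P := by exact_mod_cast hP0
  set y0 : ℚ := (P : ℚ) / (Q : ℚ) with hy0
  have hy0r : ((y0 : ℚ) : ℝ) = (P : ℝ) / Q := by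
    rw [hy0]
    push_cast
    rfl
  have h12 : wg r1 r2 ≠ 0 := hα l1 l2 hl12
  have hpt := pt_snd_ne α h12 hex
  have hoff : Off α (xp r1 r2 y0) := off_xx α hα hl12 hex
  have hd' := abs_le.1 hd
  -- `P / Q` is not small, and away from the pole
  have hPQ2 : η / 2 ≤ (P : ℝ) / Q := by linarith [hd'.1, hd'.2]
  have hpole : η / 2 ≤ |(P : ℝ) / Q * c + e| := by
    have h1 : y * c + e = ((P : ℝ) / Q * c + e) + (y - (P : ℝ) / Q) * c := by ring
    have h2 : |y * c + e| ≤ |(P : ℝ) / Q * c + e| + |y - (P : ℝ) / Q| * |c| := by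
      rw [h1, ← abs_mul]
      exact abs_add_le _ _
    have h3 : |y - (P : ℝ) / Q| * |c| ≤ η / 2 := by
      calc |y - (P : ℝ) / Q| * |c| ≤ η / (2 * (|c| + 1)) * |c| := by
            have := hd.trans e2
            gcongr
        _ ≤ η / (2 * (|c| + 1)) * (|c| + 1) := by
            gcongr
            linarith
        _ = η / 2 := by
            have : |c| + 1 ≠ 0 := by positivity
            field_simp
    linarith
  -- the height
  have hxH : mulHeight₁ (xp r1 r2 y0) ≤ C4 * Q := by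
    have h1 := hC4 y0
    have h2 := mulHeight₁_ratio (K := ℚ) hQ0.ne' (Q : ℝ) (p := P) (by exact_mod_cast hPQ.le) le_rfl
    rw [Module.finrank_self, pow_one] at h2
    calc mulHeight₁ (xp r1 r2 y0) ≤ C4 * mulHeight₁ y0 := h1
      _ ≤ C4 * Q := by gcongr
  have hHpos : 0 < mulHeight₁ (xp r1 r2 y0) := mulHeight₁_pos _
  refine ⟨⟨fun l => ?_, ?_⟩, ?_⟩
  · exact hoff l
  · -- the counting function
    have h1 := hC3 P Q hP0 hQ0 hco hpt hoff
    rw [← counting_mul, Module.finrank_self, Nat.cast_one, one_mul, one_mul, hr_aff_eq,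
      ← height_Q] at h1
    refine lt_of_le_of_lt h1 ?_
    have hradP : (0 : ℝ) < rad P := by exact_mod_cast Pool.Agent.R479.DA.rad_pos' P
    have hradQ : (0 : ℝ) < rad Q := by exact_mod_cast Pool.Agent.R479.DA.rad_pos' Q
    have h2 : Real.log (rad P) + Real.log (rad Q) ≤ mu * Real.log Q := by
      rw [← Real.log_mul hradP.ne' hradQ.ne', ← Real.log_rpow hQr]
      apply Real.log_le_log (mul_pos hradP hradQ)
      rw [one_mul] at hrad
      exact_mod_cast hrad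
    have h3 : Real.log Q + Real.log (η / 2) ≤ Real.log P := by
      rw [← Real.log_mul hQr.ne' (by positivity)]
      apply Real.log_le_log (by positivity)
      rw [le_div_iff₀ hQr] at hPQ2
      linarith
    have h4 : Pool.Agent.W221.Exc.height (xp r1 r2 y0) ≤ Real.log C4 + Real.log Q := by
      rw [height_Q, ← Real.log_mul hC40.ne' hQr.ne']
      exact Real.log_le_log hHpos hxH
    have h5 : κ * Pool.Agent.W221.Exc.height (xp r1 r2 y0) ≤
        κ * (Real.log C4 + Real.log Q) := mul_le_mul_of_nonneg_left h4 hκ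
    nlinarith [h1, h2, h3, h5, e4]
  · -- the distance
    rw [Real.dist_eq, xp_cast, exp_height_Q, hy0r]
    have h1 := mb_lip (a := a) (b := b) (c := c) (e := e) (η := η / 2) (by positivity)
      (y := y) (y' := (P : ℝ) / Q) (by linarith) hpole
    refine h1.trans ?_
    have h2 : (C4 * (Q : ℝ)) ^ (-τ) ≤ mulHeight₁ (xp r1 r2 y0) ^ (-τ) :=
      Real.rpow_le_rpow_of_nonpos hHpos hxH (by linarith)
    refine le_trans ?_ h2
    have h3 : (C4 * (Q : ℝ)) ^ (-τ) = (C4 ^ τ)⁻¹ * (Q : ℝ) ^ (-τ) := by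
      rw [Real.mul_rpow hC40.le hQr.le, Real.rpow_neg hC40.le]
    have h4 : (Q : ℝ) ^ (-τ) = (Q : ℝ) ^ (-τ') * (Q : ℝ) ^ (τ' - τ) := by
      rw [← Real.rpow_add hQr]
      congr 1
      ring
    rw [h3, h4]
    have hQτ : 0 < (Q : ℝ) ^ (-τ') := by positivity
    have hC4τ : 0 < C4 ^ τ := by positivity
    calc L * |y - (P : ℝ) / Q| ≤ L * (Q : ℝ) ^ (-τ') := by gcongr
      _ = (C4 ^ τ)⁻¹ * ((Q : ℝ) ^ (-τ') * (L * C4 ^ τ)) := by field_simp
      _ ≤ (C4 ^ τ)⁻¹ * ((Q : ℝ) ^ (-τ') * (Q : ℝ) ^ (τ' - τ)) := by gcongr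

/-- the image of a number with many approximations in `S2` is in `WE` -/
theorem mem_WE (T : Set (HeightOneSpectrum (RingOfIntegers ℚ))) {q : ℕ} (α : Fin q → ℚ × ℚ)
    (hα0 : ∀ l, α l ≠ 0) (hα : ∀ i j, i ≠ j → wg (α i) (α j) ≠ 0) (l1 l2 : Fin q) (hl12 : l1 ≠ l2)
    (κ c0 mu τ τ' : ℝ) (hκ : 0 ≤ κ) (hmu : mu < 2 - κ) (hτ : 0 < τ) (hτ' : τ < τ')
    (η : ℝ) (hη : 0 < η) (y : ℝ) (hyW : y ∈ W2 1 mu τ') (hy : η ≤ y)
    (hy2 : η ≤ |y * ((α l2).2 : ℝ) + ((α l1).2 : ℝ)|) :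
    mb ((α l2).1 : ℝ) ((α l1).1 : ℝ) ((α l2).2 : ℝ) ((α l1).2 : ℝ) y ∈ WE T α κ c0 τ := by
  classical
  have hev := ev_good T α hα0 hα l1 l2 hl12 κ c0 mu τ τ' hκ hmu hτ hτ' η hη y hy hy2
  obtain ⟨N, hN⟩ := Filter.eventually_atTop.1 hev
  set A : Set (ℕ × ℕ) := {t | t ∈ S2 1 mu ∧ |y - (t.1 : ℝ) / t.2| ≤ (t.2 : ℝ) ^ (-τ')} with hA
  set f : ℕ × ℕ → ℚ := fun t => (t.1 : ℚ) / (t.2 : ℚ) with hf
  have hfinj : Set.InjOn f {t | 0 < t.2 ∧ Nat.Coprime t.1 t.2} := by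
    rintro ⟨P, Q⟩ ⟨h1, h2⟩ ⟨P', Q'⟩ ⟨h3, h4⟩ h5
    simp only [hf] at h1 h2 h3 h4 h5
    have h6 : (((P : ℤ) : ℚ) / ((Q : ℤ) : ℚ)) = (((P' : ℤ) : ℚ) / ((Q' : ℤ) : ℚ)) := by
      rw [Int.cast_natCast, Int.cast_natCast, Int.cast_natCast, Int.cast_natCast]
      exact h5
    have h7 := Rat.div_int_inj (by exact_mod_cast h1) (by exact_mod_cast h3)
      (by simpa using h2) (by simpa using h4) h6
    ext
    · exact_mod_cast h7.1
    · exact_mod_cast h7.2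
  have hAsub : ∀ t ∈ A, 0 < t.2 ∧ Nat.Coprime t.1 t.2 := by
    rintro ⟨P, Q⟩ ⟨⟨h1, h2, h3, -⟩, -⟩
    simp only at h1 h2 h3 ⊢
    exact ⟨by omega, h3⟩
  set B : Set (ℕ × ℕ) := {t | t ∈ A ∧ N ≤ t.2 ∧ f t ∉ exc α (α l1) (α l2)} with hB
  have hBinf : B.Infinite := by
    intro hfin
    apply hyW
    have h1 : ((Finset.range N ×ˢ Finset.range N : Finset (ℕ × ℕ)) : Set (ℕ × ℕ)).Finite :=
      Finset.finite_toSet _
    have h2 : (A ∩ f ⁻¹' (exc α (α l1) (α l2) : Set ℚ)).Finite := by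
      apply Set.Finite.of_finite_image (f := f)
      · refine (Finset.finite_toSet (exc α (α l1) (α l2))).subset ?_
        rintro _ ⟨t, ht, rfl⟩
        exact ht.2
      · exact hfinj.mono fun t ht => hAsub t ht.1
    refine ((hfin.union h1).union h2).subset ?_
    intro t ht
    by_cases h3 : f t ∈ exc α (α l1) (α l2)
    · exact Or.inr ⟨ht, h3⟩
    by_cases h4 : N ≤ t.2
    · exact Or.inl (Or.inl ⟨ht, h4, h3⟩)
    · refine Or.inl (Or.inr ?_)
      push Not at h4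
      have h5 : t.1 < t.2 := ht.1.2.1
      rw [Finset.mem_coe, Finset.mem_product, Finset.mem_range, Finset.mem_range]
      exact ⟨by omega, h4⟩
  unfold WE
  simp only [Set.mem_ofPred_eq]
  refine Set.infinite_of_injOn_mapsTo (f := fun t => xp (α l1) (α l2) (f t)) (s := B) ?_ ?_ hBinf
  · intro t ht t' ht' h
    have h12 : wg (α l1) (α l2) ≠ 0 := hα l1 l2 hl12
    have h1 := pt_inj h12 (pt_snd_ne α h12 ht.2.2) (pt_snd_ne α h12 ht'.2.2) h
    exact hfinj (hAsub t ht.1) (hAsub t' ht'.1) h1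
  · rintro ⟨P, Q⟩ ⟨⟨h1, h2⟩, h3, h4⟩
    exact hN Q h3 P h1 h2 h4

/-- the lower bound for the dimension -/
theorem WE_ge (T : Set (HeightOneSpectrum (RingOfIntegers ℚ))) {q : ℕ} (hq : 2 ≤ q)
    (α : Fin q → ℚ × ℚ) (hα0 : ∀ l, α l ≠ 0) (hα : ∀ i j, i ≠ j → wg (α i) (α j) ≠ 0)
    (κ c0 τ : ℝ) (hκ : 0 ≤ κ) (hκ2 : κ < 2) (hτ : 0 < τ) :
    ENNReal.ofReal (min 1 ((2 - κ) / τ)) ≤ dimH (WE T α κ c0 τ) := by
  set l1 : Fin q := ⟨0, by omega⟩ with hl1
  set l2 : Fin q := ⟨1, by omega⟩ with hl2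
  have hl12 : l1 ≠ l2 := by
    rw [hl1, hl2]
    intro h
    have := congrArg Fin.val h
    simp at this
  have h12 : wg (α l1) (α l2) ≠ 0 := hα l1 l2 hl12
  have hdet : ((α l2).1 : ℝ) * ((α l1).2 : ℝ) - ((α l1).1 : ℝ) * ((α l2).2 : ℝ) ≠ 0 := by
    intro h
    apply h12
    unfold wg
    have h1 : ((α l2).1 * (α l1).2 - (α l1).1 * (α l2).2 : ℚ) = 0 := by exact_mod_cast h
    linarith
  have key : ∀ mu τ' : ℝ, 0 < mu → mu < 2 - κ → τ < τ' →
      ENNReal.ofReal (min 1 (mu / τ')) ≤ dimH (WE T α κ c0 τ) := by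
    intro mu τ' h1 h2 h3
    refine (dim_ge2 h1 (by linarith) one_pos (hτ.trans h3)).trans ?_
    exact dim_transfer hdet (W2 1 mu τ') (WE T α κ c0 τ) (fun y hy => W2_sub (hτ.trans h3) hy)
      fun η hη y hy hy1 hy2 => mem_WE T α hα0 hα l1 l2 hl12 κ c0 mu τ τ' hκ h2 hτ h3 η hη y hy hy1 hy2
  -- the limit
  have hlim : Tendsto (fun s : ℝ => ENNReal.ofReal (min 1 ((2 - κ - s) / (τ + s)))) (𝓝[>] 0)
      (𝓝 (ENNReal.ofReal (min 1 ((2 - κ) / τ)))) := by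
    apply ENNReal.tendsto_ofReal
    have h1 : Tendsto (fun s : ℝ => min 1 ((2 - κ - s) / (τ + s))) (𝓝 0)
        (𝓝 (min 1 ((2 - κ - 0) / (τ + 0)))) := by
      apply Tendsto.min tendsto_const_nhds
      apply Tendsto.div
      · exact Continuous.tendsto (by fun_prop) 0
      · exact Continuous.tendsto (by fun_prop) 0
      · linarith
    rw [sub_zero, add_zero] at h1
    exact h1.mono_left nhdsWithin_le_nhds
  refine le_of_tendsto hlim ?_
  have h2 : ∀ᶠ s : ℝ in 𝓝[>] 0, s < 2 - κ := by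
    apply eventually_nhdsWithin_of_eventually_nhds
    exact gt_mem_nhds (by linarith)
  filter_upwards [h2, self_mem_nhdsWithin] with s hs hs0
  have hs0' : 0 < s := hs0
  exact key (2 - κ - s) (τ + s) (by linarith) (by linarith) (by linarith)

/-- the upper bound for the dimension -/
theorem WE_le (T : Set (HeightOneSpectrum (RingOfIntegers ℚ))) (hT : T.Finite) {q : ℕ} (hq : 2 ≤ q)
    (α : Fin q → ℚ × ℚ) (hα0 : ∀ l, α l ≠ 0)
    (hα : ∀ i j, i ≠ j → (α i).1 * (α j).2 - (α i).2 * (α j).1 ≠ 0)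
    (κ c0 τ e : ℝ) (hκ : 0 ≤ κ) (he : 0 ≤ e) (hτ : 0 < τ)
    (hsel : Pool.Agent.H691R3.Sel.{0} q κ e) :
    dimH (WE T α κ c0 τ) ≤ ENNReal.ofReal (min 1 (e / τ)) := by
  rw [ENNReal.ofReal_min, ENNReal.ofReal_one]
  apply le_min
  · rw [← Real.dimH_univ]
    exact dimH_mono (Set.subset_univ _)
  · refine dimH_approx (fun x : ℚ => (x : ℝ)) (ex T α κ c0)
      (fun x => Real.exp (Pool.Agent.W221.Exc.height x)) (fun x => ?_) he hτ (fun ε hε => ?_)
    · rw [exp_height_Q]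
      exact one_le_mulHeight₁ x
    · obtain ⟨C, hC⟩ := Pool.Agent.W221.Exc.upper T hT hq α hα0 hα κ c0 ε e hκ hε he hsel
      refine ⟨C, fun B hB => ?_⟩
      have h1 : {x : ℚ | x ∈ ex T α κ c0 ∧ Real.exp (Pool.Agent.W221.Exc.height x) ≤ B} =
          exceptional T α κ c0 B := by
        ext x
        constructor
        · rintro ⟨⟨h2, h3⟩, h4⟩
          exact ⟨h2, h4, h3⟩
        · rintro ⟨h2, h4, h3⟩
          exact ⟨⟨h2, h3⟩, h4⟩
      rw [h1]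
      have h2 := hC B hB
      rw [Module.finrank_self, Nat.cast_one, one_mul] at h2
      exact h2

end Pool.Agent.R479.DB
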