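import Pool.Agent.W221.ExcUp
import Pool.Agent.R479.DB.Ae2

/-!
# Points of the line with small truncated counting function
-/

set_option autoImplicit false

namespace Pool.Agent.R479.DB

open NumberField IsDedekindDomain Finset Height
open Pool.Agent.H691R3 Pool.Agent.W221.Exc
open Pool.Agent.H785R2.ABC (rad)

variable {K : Type} [Field K] [NumberField K]

lemma log_Nv_le (v : HeightOneSpectrum (𝓞 K)) {x : K} (hx : x ≠ 0) (h : fv v x < 1) :
    Real.log (Nv v) ≤ -Real.log (fv v x) := by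
  obtain ⟨n, hn⟩ := log_fv v hx
  have hpos := (fv v).pos hx
  have hlog : Real.log (fv v x) < 0 := Real.log_neg hpos h
  have hN := log_Nv_pos v
  rw [hn] at hlog ⊢
  have hn0 : n < 0 := by
    by_contra hcon
    push Not at hcon
    have : (0 : ℝ) ≤ n := by exact_mod_cast hcon
    nlinarith
  have : (n : ℝ) ≤ -1 := by exact_mod_cast (by omega : n ≤ -1)
  nlinarith

lemma fv_eq_one (v : HeightOneSpectrum (𝓞 K)) : ∀ n : ℕ, n ≠ 0 →
    (∀ p : ℕ, p.Prime → p ∣ n → fv v (p : K) = 1) → fv v (n : K) = 1 := by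
  intro n
  induction n using Nat.strong_induction_on with
  | _ n ih =>
    intro hn hp
    rcases Nat.eq_or_lt_of_le (Nat.one_le_iff_ne_zero.2 hn) with h1 | h1
    · rw [← h1, Nat.cast_one, map_one]
    · have hpr := Nat.minFac_prime h1.ne'
      obtain ⟨k, hk⟩ := Nat.minFac_dvd n
      have hk0 : k ≠ 0 := by
        rintro rfl
        rw [mul_zero] at hk
        exact hn hk
      have hkn : k < n := by
        have := hpr.two_le
        have hk1 : 0 < k := Nat.pos_of_ne_zero hk0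
        rw [hk]
        nlinarith
      have h2 := ih k hkn hk0 fun p h3 h4 => hp p h3 (hk ▸ Dvd.dvd.mul_left h4 _)
      rw [hk, Nat.cast_mul, map_mul, h2, hp _ hpr (Nat.minFac_dvd n), mul_one]

lemma sum_log_Nv_le {P : ℕ} (hP : P ≠ 0) :
    ∑ v ∈ Vp K P hP, Real.log (Nv v) ≤ Module.finrank ℚ K * Real.log (rad P) := by
  classical
  set f : ℕ → HeightOneSpectrum (𝓞 K) → ℝ := fun p v =>
    if fv v (p : K) < 1 then -Real.log (fv v (p : K)) else 0 with hf
  have hf0 : ∀ p : ℕ, p ≠ 0 → ∀ v, 0 ≤ f p v := by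
    intro p hp v
    simp only [hf]
    split_ifs with h
    · have := Real.log_neg ((fv v).pos (by exact_mod_cast hp : (p : K) ≠ 0)) h
      linarith
    · exact le_rfl
  have h1 : ∀ v ∈ Vp K P hP, Real.log (Nv v) ≤ ∑ p ∈ P.primeFactors, f p v := by
    intro v hv
    rw [mem_Vp] at hv
    obtain ⟨p, hp, hpP, hpv⟩ : ∃ p : ℕ, p.Prime ∧ p ∣ P ∧ fv v (p : K) < 1 := by
      by_contra hcon
      push Not at hcon
      have := fv_eq_one v P hP fun p hp hpP => le_antisymm (fv_nat_le_one v p) (hcon p hp hpP)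
      linarith
    have hmem : p ∈ P.primeFactors := Nat.mem_primeFactors.2 ⟨hp, hpP, hP⟩
    have h2 : f p v = -Real.log (fv v (p : K)) := by
      simp only [hf]
      rw [if_pos hpv]
    have h3 : f p v ≤ ∑ p ∈ P.primeFactors, f p v :=
      Finset.single_le_sum (f := fun p => f p v)
        (fun p hp => hf0 p (Nat.prime_of_mem_primeFactors hp).ne_zero v) hmem
    have h4 := log_Nv_le v (by exact_mod_cast hp.ne_zero : (p : K) ≠ 0) hpv
    linarith
  refine (Finset.sum_le_sum h1).trans ?_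
  rw [Finset.sum_comm]
  have h5 : ∀ p ∈ P.primeFactors, ∑ v ∈ Vp K P hP, f p v ≤ Module.finrank ℚ K * Real.log p := by
    intro p hp
    have hp0 := (Nat.prime_of_mem_primeFactors hp).ne_zero
    rw [← sum_Vp (K := K) hp0]
    have h6 : ∑ v ∈ Vp K P hP, f p v = ∑ v ∈ (Vp K P hP).filter (fun v => fv v (p : K) < 1),
        -Real.log (fv v (p : K)) := by
      rw [Finset.sum_filter]
    rw [h6]
    refine Finset.sum_le_sum_of_subset_of_nonneg ?_ ?_
    · intro v hv
      rw [Finset.mem_filter] at hv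
      rw [mem_Vp]
      exact hv.2
    · intro v hv _
      rw [mem_Vp] at hv
      have := Real.log_neg ((fv v).pos (by exact_mod_cast hp0 : (p : K) ≠ 0)) hv
      linarith
  refine (Finset.sum_le_sum h5).trans (le_of_eq ?_)
  rw [← Finset.mul_sum]
  congr 1
  unfold rad
  rw [Nat.cast_prod, Real.log_prod]
  intro p hp
  exact_mod_cast (Nat.prime_of_mem_primeFactors hp).ne_zero

/-- the point attached to `y` -/
noncomputable def xp (r1 r2 : K × K) (y : K) : K := (pt r1 r2 y).1 / (pt r1 r2 y).2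

theorem NTc_y {q : ℕ} (T : Set (HeightOneSpectrum (𝓞 K))) (α : Fin q → K × K)
    (hα0 : ∀ l, α l ≠ 0) (hα : ∀ i j, i ≠ j → wg (α i) (α j) ≠ 0) (l1 l2 : Fin q) (hl12 : l1 ≠ l2) :
    ∃ C3 : ℝ, ∀ (P Q : ℕ), 0 < P → 0 < Q → Nat.Coprime P Q →
      (pt (α l1) (α l2) ((P : K) / (Q : K))).2 ≠ 0 →
      Off α (xp (α l1) (α l2) ((P : K) / (Q : K))) →
      NTc T α (xp (α l1) (α l2) ((P : K) / (Q : K))) ≤
        q * hr (aff (xp (α l1) (α l2) ((P : K) / (Q : K)))) + C3 -
          Module.finrank ℚ K * (Real.log P - Real.log (rad P) + (Real.log Q - Real.log (rad Q))) := by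
  classical
  set r1 := α l1 with hr1
  set r2 := α l2 with hr2
  have h12 : wg r1 r2 ≠ 0 := hα l1 l2 hl12
  set c : HeightOneSpectrum (𝓞 K) → ℝ := fun v => Real.log (nrm (fv v) r1) -
    Real.log (nrm (fv v) r2) with hc
  set Bad : Finset (HeightOneSpectrum (𝓞 K)) := (max_support_finite (hα0 l1)).toFinset ∪
    (max_support_finite (hα0 l2)).toFinset with hBad
  have hBad0 : ∀ v, v ∉ Bad → c v = 0 := by
    intro v hv
    rw [hBad, Finset.mem_union, Set.Finite.mem_toFinset, Set.Finite.mem_toFinset] at hv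
    simp only [Set.mem_ofPred_eq, not_or, not_not] at hv
    simp only [hc]
    unfold nrm
    rw [hv.1, hv.2]
    simp
  set D : ℝ := ∑ v ∈ Bad, |c v| with hD
  have hDS : ∀ S : Finset (HeightOneSpectrum (𝓞 K)), |∑ v ∈ S, c v| ≤ D := by
    intro S
    refine (Finset.abs_sum_le_sum_abs _ _).trans ?_
    have h1 : ∑ v ∈ S, |c v| = ∑ v ∈ S.filter (fun v => v ∈ Bad), |c v| := by
      rw [Finset.sum_filter]
      refine Finset.sum_congr rfl fun v _ => ?_
      split_ifs with h
      · rfl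
      · rw [hBad0 v h, abs_zero]
    rw [h1]
    refine Finset.sum_le_sum_of_subset_of_nonneg ?_ fun v _ _ => abs_nonneg _
    intro v hv
    exact (Finset.mem_filter.1 hv).2
  refine ⟨q * lossK K + ∑ l, hr (α l) + 2 * D, ?_⟩
  intro P Q hP hQ hco hpt hoff
  have hPK : (P : K) ≠ 0 := by exact_mod_cast hP.ne'
  have hQK : (Q : K) ≠ 0 := by exact_mod_cast hQ.ne'
  set y : K := (P : K) / (Q : K) with hy
  have hy0 : y ≠ 0 := div_ne_zero hPK hQK
  have hpt0 : pt r1 r2 y ≠ 0 := by
    intro h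
    apply hpt
    rw [h]; rfl
  have hlogy : ∀ v, Real.log (fv v y) = Real.log (fv v (P : K)) - Real.log (fv v (Q : K)) := by
    intro v
    rw [hy, map_div₀, Real.log_div ((fv v).ne_zero hPK) ((fv v).ne_zero hQK)]
  have hmain := NTc_le T α hα0 l1 l2 hl12 (Vp K P hP.ne') (Vp K Q hQ.ne')
    (xp r1 r2 y) hoff (fun v => c v + (-Real.log (fv v (P : K))) - Real.log (Nv v))
    (fun v => -c v + (-Real.log (fv v (Q : K))) - Real.log (Nv v)) ?_ ?_
  · rw [Finset.sum_sub_distrib, Finset.sum_sub_distrib, Finset.sum_add_distrib,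
      Finset.sum_add_distrib, sum_Vp, sum_Vp, Finset.sum_neg_distrib (f := c)] at hmain
    have h1 := (abs_le.1 (hDS (Vp K P hP.ne'))).1
    have h2 := (abs_le.1 (hDS (Vp K Q hQ.ne'))).2
    have h3 := sum_log_Nv_le (K := K) hP.ne'
    have h4 := sum_log_Nv_le (K := K) hQ.ne'
    linarith
  · intro v hv
    rw [mem_Vp] at hv
    unfold xp
    rw [lamA_aff (fv v) hpt]
    have h1 := lamA_pt_left (fv v) (fv_na v) (hα0 l1) (hα0 l2) h12 hy0 hpt0
    have h2 := hlogy v
    rw [fv_eq_one_of_coprime v hv hco, Real.log_one] at h2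
    simp only [hc]
    linarith
  · intro v hv
    rw [mem_Vp] at hv
    unfold xp
    rw [lamA_aff (fv v) hpt]
    have h1 := lamA_pt_right (fv v) (fv_na v) (hα0 l1) (hα0 l2) h12 hy0 hpt0
    have h2 := hlogy v
    rw [fv_eq_one_of_coprime v hv hco.symm, Real.log_one] at h2
    simp only [hc]
    linarith

end Pool.Agent.R479.DB
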